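import Mathlib

/-! # Perturbed grids: real variable lemmas (discrete intermediate values, rigidity of the displacement) -/

namespace Pool.Agent.Lib.MP_a768d2_co.RG

/-- discrete intermediate value theorem -/
theorem ivt (f : ℕ → ℝ) (a b : ℕ) (s t : ℝ) (hab : a ≤ b) (hs0 : 0 ≤ s)
    (hs : ∀ τ, a ≤ τ → τ < b → |f (τ + 1) - f τ| ≤ s) (h1 : f a ≤ t) (h2 : t ≤ f b) :
    ∃ τ, a ≤ τ ∧ τ ≤ b ∧ |f τ - t| ≤ s := by
  induction b, hab using Nat.le_induction with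
  | base =>
    refine ⟨a, le_rfl, le_rfl, ?_⟩
    have : f a = t := le_antisymm h1 h2
    rw [this, sub_self, abs_zero]
    exact hs0
  | succ b hab ih =>
    by_cases h : t ≤ f b
    · obtain ⟨τ, h3, h4, h5⟩ := ih (fun τ ha hb => hs τ ha (by omega)) h
      exact ⟨τ, h3, by omega, h5⟩
    · push Not at h
      refine ⟨b + 1, by omega, le_rfl, ?_⟩
      have h3 := hs b hab (by omega)
      rw [abs_le] at h3 ⊢
      constructor <;> linarith [h3.1, h3.2]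

/-- The line of a short pair stays in the gap of its own row.  `f τ j = τ p + j (1 + q) + R τ j` is
the (doubled) area of the triangle `k, k + e, k + τ e + j g`. -/
theorem lock (p q R0 s0 s1 s a0 a1 ρ : ℝ) (T τr : ℕ) (J : ℤ) (R : ℕ → ℤ → ℝ)
    (hR0 : 0 ≤ R0) (hT : 1 ≤ T) (hτr : τr ≤ T)
    (hq : |q| ≤ 1 / 16) (hs : |p| + s0 ≤ s)
    (hR : ∀ τ j, τ ≤ T → |j| ≤ J → |R τ j| ≤ R0)
    (hstep : ∀ τ j, τ < T → |j| ≤ J → |R (τ + 1) j - R τ j| ≤ s0)
    (hadj : ∀ τ, τ ≤ T → |R τ 1 - R τ 0| ≤ s1 ∧ |R τ (-1) - R τ 0| ≤ s1)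
    (hJ : (T : ℝ) * |p| ≤ J) (hJ1 : 1 ≤ J)
    (hfar : ∀ τ j, T / 2 ≤ τ → τ ≤ T → |j| ≤ J → a0 < |(τ : ℝ) * p + j * (1 + q) + R τ j|)
    (ha0 : s ≤ a0)
    (hmid : ∀ τ, τr ≤ τ → τ ≤ T → a1 < |(τ : ℝ) * p + (1 + q) + R τ 1| ∧
      a1 < |(τ : ℝ) * p - (1 + q) + R τ (-1)|)
    (ha1 : s + |q| + s1 ≤ a1)
    (hρ : |R τr 0| ≤ ρ) (hsum : (τr : ℝ) / T * (5 * R0 + 5) + ρ ≤ 1 / 2) :
    |(T : ℝ) * p + R T 0| < 1 := by
  have hT0 : (0 : ℝ) < T := by exact_mod_cast hT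
  have hs0' : 0 ≤ s0 := le_trans (abs_nonneg _) (hstep 0 0 (by omega) (by simp; omega))
  have hs' : 0 ≤ s := le_trans (by positivity) hs
  -- Claim 1
  have claim1 : (T : ℝ) * |p| ≤ 5 * R0 + 5 := by
    by_contra hcon
    push Not at hcon
    -- the row
    set J0 : ℤ := ⌊(3 / 4 : ℝ) * ((T : ℝ) * |p|)⌋ with hJ0
    have hJ0a : (J0 : ℝ) ≤ 3 / 4 * ((T : ℝ) * |p|) := Int.floor_le _
    have hJ0b : 3 / 4 * ((T : ℝ) * |p|) - 1 < J0 := Int.sub_one_lt_floor _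
    have hTp : 0 ≤ (T : ℝ) * |p| := by positivity
    have hJ0nn : 0 ≤ J0 := Int.floor_nonneg.mpr (by positivity)
    have hJ0J : |J0| ≤ J := by
      rw [abs_of_nonneg hJ0nn]
      have : (J0 : ℝ) ≤ J := by linarith
      exact_mod_cast this
    have hJ0R : (0 : ℝ) ≤ J0 := by exact_mod_cast hJ0nn
    obtain ⟨hq1, hq2⟩ := abs_le.mp hq
    have hT2 : ((T / 2 : ℕ) : ℝ) ≤ T / 2 := Nat.cast_div_le
    rcases le_total 0 p with hp | hp
    · -- p ≥ 0: use the row -J0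
      rw [abs_of_nonneg hp] at hcon hJ0a hJ0b hTp
      let f : ℕ → ℝ := fun τ => (τ : ℝ) * p + ((-J0 : ℤ) : ℝ) * (1 + q) + R τ (-J0)
      have hjj : |(-J0)| ≤ J := by rw [abs_neg]; exact hJ0J
      have hst : ∀ τ, T / 2 ≤ τ → τ < T → |f (τ + 1) - f τ| ≤ s := by
        intro τ _ hτ
        have e : f (τ + 1) - f τ = p + (R (τ + 1) (-J0) - R τ (-J0)) := by
          simp only [f]; push_cast; ring
        rw [e]
        refine (abs_add_le _ _).trans ?_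
        linarith [hstep τ (-J0) hτ hjj]
      have hlo : f (T / 2) ≤ 0 := by
        have h1 := (abs_le.mp (hR (T / 2) (-J0) (Nat.div_le_self _ _) hjj)).2
        simp only [f]
        push_cast
        have h2 : ((T / 2 : ℕ) : ℝ) * p ≤ T / 2 * p := mul_le_mul_of_nonneg_right hT2 hp
        have h3 : (15 / 16 : ℝ) * J0 ≤ J0 * (1 + q) := by nlinarith
        nlinarith
      have hhi : 0 ≤ f T := by
        have h1 := (abs_le.mp (hR T (-J0) le_rfl hjj)).1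
        simp only [f]
        push_cast
        have h3 : J0 * (1 + q) ≤ (17 / 16 : ℝ) * J0 := by nlinarith
        nlinarith
      obtain ⟨τ, h1, h2, h3⟩ := ivt f (T / 2) T s 0 (Nat.div_le_self _ _) hs' hst hlo hhi
      rw [sub_zero] at h3
      have h4 := hfar τ (-J0) h1 h2 hjj
      simp only [f] at h3
      linarith
    · -- p ≤ 0: use the row J0
      rw [abs_of_nonpos hp] at hcon hJ0a hJ0b hTp
      let f : ℕ → ℝ := fun τ => -((τ : ℝ) * p + (J0 : ℝ) * (1 + q) + R τ J0)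
      have hst : ∀ τ, T / 2 ≤ τ → τ < T → |f (τ + 1) - f τ| ≤ s := by
        intro τ _ hτ
        have e : f (τ + 1) - f τ = -(p + (R (τ + 1) J0 - R τ J0)) := by
          simp only [f]; push_cast; ring
        rw [e, abs_neg]
        refine (abs_add_le _ _).trans ?_
        linarith [hstep τ J0 hτ hJ0J]
      have hlo : f (T / 2) ≤ 0 := by
        have h1 := (abs_le.mp (hR (T / 2) J0 (Nat.div_le_self _ _) hJ0J)).1
        simp only [f]
        have h2 : ((T / 2 : ℕ) : ℝ) * (-p) ≤ T / 2 * (-p) := mul_le_mul_of_nonneg_right hT2 (by linarith)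
        have h3 : (15 / 16 : ℝ) * J0 ≤ J0 * (1 + q) := by nlinarith
        nlinarith
      have hhi : 0 ≤ f T := by
        have h1 := (abs_le.mp (hR T J0 le_rfl hJ0J)).2
        simp only [f]
        have h3 : J0 * (1 + q) ≤ (17 / 16 : ℝ) * J0 := by nlinarith
        nlinarith
      obtain ⟨τ, h1, h2, h3⟩ := ivt f (T / 2) T s 0 (Nat.div_le_self _ _) hs' hst hlo hhi
      rw [sub_zero] at h3
      have h4 := hfar τ J0 h1 h2 hJ0J
      simp only [f] at h3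
      rw [abs_neg] at h3
      linarith
  -- value at τr
  have hstart : |(τr : ℝ) * p + R τr 0| ≤ 1 / 2 := by
    refine (abs_add_le _ _).trans ?_
    have h1 : |(τr : ℝ) * p| = (τr : ℝ) / T * (T * |p|) := by
      rw [abs_mul, abs_of_nonneg (Nat.cast_nonneg τr)]
      field_simp
    rw [h1]
    have h2 : (τr : ℝ) / T * (T * |p|) ≤ (τr : ℝ) / T * (5 * R0 + 5) :=
      mul_le_mul_of_nonneg_left claim1 (by positivity)
    linarith
  by_contra hcon
  push Not at hcon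
  have hst : ∀ τ, τr ≤ τ → τ < T → |((τ + 1 : ℕ) : ℝ) * p + R (τ + 1) 0 - ((τ : ℝ) * p + R τ 0)| ≤ s := by
    intro τ _ hτ
    have e : ((τ + 1 : ℕ) : ℝ) * p + R (τ + 1) 0 - ((τ : ℝ) * p + R τ 0) =
        p + (R (τ + 1) 0 - R τ 0) := by push_cast; ring
    rw [e]
    refine (abs_add_le _ _).trans ?_
    linarith [hstep τ 0 hτ (by simp; omega)]
  obtain ⟨hs1, hs2⟩ := abs_le.mp hstart
  rcases le_abs.mp hcon with h | h
  · obtain ⟨τ, h1, h2, h3⟩ := ivt (fun τ => (τ : ℝ) * p + R τ 0) τr T s 1 hτr hs' hst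
      (by linarith) h
    have h4 := (hmid τ h1 h2).2
    have h5 := (hadj τ h2).2
    have e : (τ : ℝ) * p - (1 + q) + R τ (-1) =
        ((τ : ℝ) * p + R τ 0 - 1) + (-q) + (R τ (-1) - R τ 0) := by ring
    rw [e] at h4
    have h6 := abs_add_le (((τ : ℝ) * p + R τ 0 - 1) + (-q)) (R τ (-1) - R τ 0)
    have h7 := abs_add_le ((τ : ℝ) * p + R τ 0 - 1) (-q)
    rw [abs_neg] at h7
    linarith
  · have hst' : ∀ τ, τr ≤ τ → τ < T →
        |(fun τ : ℕ => -((τ : ℝ) * p + R τ 0)) (τ + 1) - (fun τ : ℕ => -((τ : ℝ) * p + R τ 0)) τ| ≤ s := by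
      intro τ h1 h2
      have := hst τ h1 h2
      have e : (fun τ : ℕ => -((τ : ℝ) * p + R τ 0)) (τ + 1) - (fun τ : ℕ => -((τ : ℝ) * p + R τ 0)) τ
          = -(((τ + 1 : ℕ) : ℝ) * p + R (τ + 1) 0 - ((τ : ℝ) * p + R τ 0)) := by
        simp only; ring
      rw [e, abs_neg]
      exact this
    obtain ⟨τ, h1, h2, h3⟩ := ivt (fun τ : ℕ => -((τ : ℝ) * p + R τ 0)) τr T s 1 hτr hs' hst'
      (by linarith) h
    have h4 := (hmid τ h1 h2).1
    have h5 := (hadj τ h2).1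
    have e : (τ : ℝ) * p + (1 + q) + R τ 1 =
        -(-((τ : ℝ) * p + R τ 0) - 1) + q + (R τ 1 - R τ 0) := by ring
    rw [e] at h4
    have h6 := abs_add_le (-(-((τ : ℝ) * p + R τ 0) - 1) + q) (R τ 1 - R τ 0)
    have h7 := abs_add_le (-(-((τ : ℝ) * p + R τ 0) - 1)) q
    rw [abs_neg] at h7
    linarith

/-- Rigidity: bounded perpendicular components in the directions `(1,0)`, `(0,1)`, `(i,1)` force the
vertical displacement along a horizontal row to be known up to a constant. -/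
theorem rigid (K : ℕ) (W1 W2 : ℕ → ℕ → ℝ) (h10 h01 : ℝ) (h : ℕ → ℝ)
    (A1 : ∀ a b, a ≤ K → b ≤ 2 → |W2 (a + 1) b - W2 a b + h10| ≤ 17)
    (A2 : ∀ a b, a ≤ K + 1 → b ≤ 1 → |W1 a (b + 1) - W1 a b - h01| ≤ 17)
    (A3 : ∀ i a b, 1 ≤ i → a + i ≤ K + 1 → b ≤ 1 →
      |(W1 (a + i) (b + 1) - W1 a b) - i * (W2 (a + i) (b + 1) - W2 a b) - h i| ≤ 17 * i)
    (k : ℕ) (hk : 1 ≤ k) (hkK : k ≤ K) :
    |W2 k 0 - W2 0 0 + h k / k - (h 1 - h01 - h10) - h01 / k| ≤ 289 := by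
  set κ0 : ℝ := h 1 - h01 - h10 with hκ0
  -- X - Y
  have B1 : ∀ a b, a ≤ K → b ≤ 1 →
      |(W1 (a + 1) b - W1 a b) - (W2 a (b + 1) - W2 a b) - κ0| ≤ 51 := by
    intro a b ha hb
    have h1 := A3 1 a b le_rfl (by omega) hb
    have h2 := A2 (a + 1) b (by omega) hb
    have h3 := A1 a (b + 1) ha (by omega)
    simp only [Nat.cast_one, one_mul, mul_one] at h1
    rw [abs_le] at h1 h2 h3 ⊢
    rw [hκ0]
    constructor <;> linarith [h1.1, h1.2, h2.1, h2.2, h3.1, h3.2]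
  have B2 : ∀ a, a ≤ K → |(W1 (a + 1) 1 - W1 a 1) - (W1 (a + 1) 0 - W1 a 0)| ≤ 34 := by
    intro a ha
    have h1 := A2 (a + 1) 0 (by omega) (by omega)
    have h2 := A2 a 0 (by omega) (by omega)
    simp only [zero_add] at h1 h2
    rw [abs_le] at h1 h2 ⊢
    constructor <;> linarith [h1.1, h1.2, h2.1, h2.2]
  have B3 : ∀ a, a ≤ K → |(W2 a 2 - W2 a 1) - (W2 a 1 - W2 a 0)| ≤ 136 := by
    intro a ha
    have h1 := B1 a 1 ha le_rfl
    have h2 := B1 a 0 ha (by omega)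
    have h3 := B2 a ha
    simp only [zero_add, Nat.reduceAdd] at h1 h2
    rw [abs_le] at h1 h2 h3 ⊢
    constructor <;> linarith [h1.1, h1.2, h2.1, h2.2, h3.1, h3.2]
  have B4 : ∀ a i, 1 ≤ i → a + i ≤ K → |(W2 (a + i) 2 - W2 (a + i) 1) - (W2 a 1 - W2 a 0)| ≤ 68 := by
    intro a i hi hai
    have h1 := A3 i a 1 hi (by omega) le_rfl
    have h2 := A3 i a 0 hi (by omega) (by omega)
    have h3 := A2 (a + i) 1 (by omega) le_rfl
    have h4 := A2 a 0 (by omega) (by omega)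
    simp only [zero_add, Nat.reduceAdd] at h1 h2 h3 h4
    have hi' : (1 : ℝ) ≤ i := by exact_mod_cast hi
    have hi0 : (0 : ℝ) < i := by linarith
    have h5 : |(i : ℝ) * ((W2 (a + i) 2 - W2 (a + i) 1) - (W2 a 1 - W2 a 0))| ≤ 68 * i := by
      rw [abs_le] at h1 h2 h3 h4 ⊢
      constructor <;> nlinarith [h1.1, h1.2, h2.1, h2.2, h3.1, h3.2, h4.1, h4.2]
    rw [abs_mul, abs_of_pos hi0] at h5
    have : (i : ℝ) * |(W2 (a + i) 2 - W2 (a + i) 1) - (W2 a 1 - W2 a 0)| ≤ i * 68 := by linarith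
    exact le_of_mul_le_mul_left this hi0
  have B5 : ∀ a i, a + i ≤ K → |(W2 (a + i) 1 - W2 (a + i) 0) - (W2 a 1 - W2 a 0)| ≤ 204 := by
    intro a i hai
    rcases Nat.eq_zero_or_pos i with hi | hi
    · subst hi
      simp
    · have h1 := B4 a i hi hai
      have h2 := B3 (a + i) hai
      rw [abs_le] at h1 h2 ⊢
      constructor <;> linarith [h1.1, h1.2, h2.1, h2.2]
  have B6 : ∀ i, i < k → |(W1 (i + 1) 0 - W1 i 0) - (W2 k 1 - W2 k 0) - κ0| ≤ 255 := by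
    intro i hi
    have h1 := B1 i 0 (by omega) (by omega)
    have h2 := B5 i (k - i) (by omega)
    rw [show i + (k - i) = k by omega] at h2
    simp only [zero_add] at h1
    rw [abs_le] at h1 h2 ⊢
    constructor <;> linarith [h1.1, h1.2, h2.1, h2.2]
  have B7 : |(W1 k 0 - W1 0 0) - k * ((W2 k 1 - W2 k 0) + κ0)| ≤ 255 * k := by
    have e : (W1 k 0 - W1 0 0) - k * ((W2 k 1 - W2 k 0) + κ0) =
        ∑ i ∈ Finset.range k, ((W1 (i + 1) 0 - W1 i 0) - (W2 k 1 - W2 k 0) - κ0) := by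
      rw [Finset.sum_sub_distrib, Finset.sum_sub_distrib, Finset.sum_range_sub (fun i => W1 i 0)]
      simp only [Finset.sum_const, Finset.card_range, nsmul_eq_mul]
      ring
    rw [e]
    refine (Finset.abs_sum_le_sum_abs _ _).trans ?_
    have : ∑ i ∈ Finset.range k, |(W1 (i + 1) 0 - W1 i 0) - (W2 k 1 - W2 k 0) - κ0| ≤
        ∑ _i ∈ Finset.range k, (255 : ℝ) :=
      Finset.sum_le_sum (fun i hi => B6 i (Finset.mem_range.mp hi))
    rw [Finset.sum_const, Finset.card_range, nsmul_eq_mul] at this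
    linarith
  have h1 := A3 k 0 0 hk (by omega) (by omega)
  have h2 := A2 k 0 (by omega) (by omega)
  simp only [zero_add] at h1 h2
  have hk' : (1 : ℝ) ≤ k := by exact_mod_cast hk
  have hk0 : (0 : ℝ) < k := by linarith
  have h3 : |(k : ℝ) * (W2 k 0 - W2 0 0 + h k / k - κ0 - h01 / k)| ≤ 289 * k := by
    have e : (k : ℝ) * (W2 k 0 - W2 0 0 + h k / k - κ0 - h01 / k) =
        k * (W2 k 0 - W2 0 0) + h k - k * κ0 - h01 := by
      field_simp
    rw [e]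
    rw [abs_le] at h1 h2 B7 ⊢
    constructor <;> nlinarith [h1.1, h1.2, h2.1, h2.2, B7.1, B7.2]
  rw [abs_mul, abs_of_pos hk0] at h3
  have : (k : ℝ) * |W2 k 0 - W2 0 0 + h k / k - κ0 - h01 / k| ≤ k * 289 := by linarith
  exact le_of_mul_le_mul_left this hk0

end Pool.Agent.Lib.MP_a768d2_co.RG
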