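import Pool.Agent.Lib.MP_a768d2_coR.RgA

/-! # Perturbed grids: the geometric core -/

namespace Pool.Agent.Lib.MP_a768d2_co.RG

noncomputable section

/-- sup distance of two labels -/
def nd (k l : ℤ × ℤ) : ℤ := max |k.1 - l.1| |k.2 - l.2|

/-- the labels of the grid -/
def inbox (N : ℕ) (k : ℤ × ℤ) : Prop := 0 ≤ k.1 ∧ k.1 ≤ N ∧ 0 ≤ k.2 ∧ k.2 ≤ N

/-- twice the (oriented) area of the triangle of the perturbed lattice points `k, l, m`, where the
lattice point `k` has been moved by `(u k, v k)` -/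
def D (u v : ℤ × ℤ → ℝ) (k l m : ℤ × ℤ) : ℝ :=
  (((l.1 - k.1 : ℤ) : ℝ) + (u l - u k)) * (((m.2 - k.2 : ℤ) : ℝ) + (v m - v k)) -
    (((l.2 - k.2 : ℤ) : ℝ) + (v l - v k)) * (((m.1 - k.1 : ℤ) : ℝ) + (u m - u k))

/-- the hypotheses of the core theorem -/
structure Hyp (N K : ℕ) (Γ δ r γ c : ℝ) (u v : ℤ × ℤ → ℝ) : Prop where
  near : ∀ k l, inbox N k → inbox N l → nd k l ≤ K + 3 → |u k - u l| ≤ δ ∧ |v k - v l| ≤ δ
  glob : ∀ k l, inbox N k → inbox N l → |u k - u l| ≤ Γ ∧ |v k - v l| ≤ Γ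
  mid : ∀ k l, inbox N k → inbox N l → (nd k l : ℝ) ≤ r * N / 4 → |u k - u l| ≤ γ ∧ |v k - v l| ≤ γ
  area : ∀ k l m, inbox N k → inbox N l → inbox N m → k ≠ l → nd k l ≤ K →
    r * N / 16 ≤ nd k m → c * ((nd k m : ℝ) / N) ^ 2 ≤ |D u v k l m|

/-- the numerical conditions -/
structure Num (N K : ℕ) (Γ δ r γ c : ℝ) : Prop where
  hK : 1 ≤ K
  hΓ : 1 ≤ Γ
  hδ : 0 < δ
  hc : 0 < c
  hr : 0 < r
  hγ : 0 ≤ γ
  n1 : 200 * K * Γ * r ≤ 1
  n2 : 32 * K * γ ≤ 1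
  n3 : 12 * K * δ < c * (r / 16) ^ 2
  n4 : 4 * K * δ + 2 * δ * Γ ≤ 1
  n5 : δ ≤ 1 / 64
  n6 : 2 * K * δ + 2 * δ * Γ ≤ c / 1000
  n7 : 64 * (K + 3) ≤ r * N
  n8 : 3200 * K ^ 2 * Γ ≤ N

theorem Num.r_le {N K : ℕ} {Γ δ r γ c : ℝ} (n : Num N K Γ δ r γ c) : r ≤ 1 / 200 := by
  have h1 : (1 : ℝ) ≤ K := by exact_mod_cast n.hK
  have h2 : 1 ≤ K * Γ := by nlinarith [n.hΓ]
  have := n.n1
  have := n.hr
  nlinarith

theorem Num.K1 {N K : ℕ} {Γ δ r γ c : ℝ} (n : Num N K Γ δ r γ c) : (1 : ℝ) ≤ K := by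
  exact_mod_cast n.hK

theorem Num.N_ge {N K : ℕ} {Γ δ r γ c : ℝ} (n : Num N K Γ δ r γ c) : (12800 : ℝ) * (K + 3) ≤ N := by
  have h1 := n.r_le
  have h2 := n.n7
  have h3 : (0 : ℝ) ≤ N := Nat.cast_nonneg _
  nlinarith

theorem D_formula (u v : ℤ × ℤ → ℝ) (k : ℤ × ℤ) (e1 e2 g1 g2 τ j : ℤ) (hdet : e1 * g2 - e2 * g1 = 1) :
    D u v k (k.1 + e1, k.2 + e2) (k.1 + τ * e1 + j * g1, k.2 + τ * e2 + j * g2) =
      (τ : ℝ) * ((u (k.1 + e1, k.2 + e2) - u k) * e2 - (v (k.1 + e1, k.2 + e2) - v k) * e1) +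
      j * (1 + ((u (k.1 + e1, k.2 + e2) - u k) * g2 - (v (k.1 + e1, k.2 + e2) - v k) * g1)) +
      ((e1 + (u (k.1 + e1, k.2 + e2) - u k)) * (v (k.1 + τ * e1 + j * g1, k.2 + τ * e2 + j * g2) - v k) -
       (e2 + (v (k.1 + e1, k.2 + e2) - v k)) * (u (k.1 + τ * e1 + j * g1, k.2 + τ * e2 + j * g2) - u k)) := by
  have hd : (e1 : ℝ) * g2 - e2 * g1 = 1 := by exact_mod_cast hdet
  unfold D
  simp only
  push_cast
  have : (1 : ℝ) = e1 * g2 - e2 * g1 := hd.symm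
  rw [this]
  ring

/-- a bound for a cross product -/
theorem cross_le {x1 x2 y1 y2 X Y : ℝ} (hX : 0 ≤ X) (h1 : |x1| ≤ X) (h2 : |x2| ≤ X) (h3 : |y1| ≤ Y)
    (h4 : |y2| ≤ Y) : |x1 * y1 - x2 * y2| ≤ 2 * X * Y := by
  refine (abs_sub _ _).trans ?_
  rw [abs_mul, abs_mul]
  have h5 : |x1| * |y1| ≤ X * Y := mul_le_mul h1 h3 (abs_nonneg _) hX
  have h6 : |x2| * |y2| ≤ X * Y := mul_le_mul h2 h4 (abs_nonneg _) hX
  linarith

/-- (S3): non-crossing.  `k = (h + a, h + b)` with `h = N / 2`, `e = (e1, e2)`, `T = N / (8 M)`. -/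
theorem S3gen {N K : ℕ} {Γ δ r γ c : ℝ} {u v : ℤ × ℤ → ℝ} (H : Hyp N K Γ δ r γ c u v)
    (n : Num N K Γ δ r γ c) (M : ℕ) (hM : 1 ≤ M) (hMK : M ≤ K) (e1 e2 g1 g2 : ℤ)
    (he1 : |e1| ≤ M) (he2 : |e2| ≤ M) (heM : (M : ℤ) ≤ max |e1| |e2|)
    (hdet : e1 * g2 - e2 * g1 = 1) (hg1 : |g1| ≤ 1) (hg2 : |g2| ≤ 1)
    (a b : ℤ) (ha0 : 0 ≤ a) (ha : a ≤ K) (hb0 : 0 ≤ b) (hb : b ≤ 2)
    (ha0' : 0 ≤ a + e1) (ha' : a + e1 ≤ K) (hb0' : 0 ≤ b + e2) (hb' : b + e2 ≤ 2)
    (h : ℤ) (hh : h = (N / 2 : ℕ)) (T : ℕ) (hT : T = N / (8 * M)) :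
    |(N : ℝ) * ((u (h + a + e1, h + b + e2) - u (h + a, h + b)) * e2 -
        (v (h + a + e1, h + b + e2) - v (h + a, h + b)) * e1) -
      -((N : ℝ) / T * (e1 * (v (h + T * e1, h + T * e2) - v (h, h)) -
         e2 * (u (h + T * e1, h + T * e2) - u (h, h))))| ≤ 17 * M := by
  -- sizes
  have hK1 := n.K1
  have hM1 : (1 : ℝ) ≤ M := by exact_mod_cast hM
  have hMKR : (M : ℝ) ≤ K := by exact_mod_cast hMK
  have hNge := n.N_ge
  have hNgeN : 12800 * (K + 3) ≤ N := by exact_mod_cast hNge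
  have hr200 := n.r_le
  have hr := n.hr
  have hδ := n.hδ
  have hΓ := n.hΓ
  have hc := n.hc
  have hN0 : (0 : ℝ) < N := by linarith
  have h2h : 2 * h ≤ N ∧ (N : ℤ) ≤ 2 * h + 1 := by omega
  have h8T : 8 * (M * T) ≤ N := by
    rw [hT]
    calc 8 * (M * (N / (8 * M))) = (8 * M) * (N / (8 * M)) := by ring
      _ ≤ N := Nat.mul_div_le _ _
  have h8T' : N < 8 * (M * T) + 8 * M := by
    have := Nat.lt_mul_div_succ N (show 0 < 8 * M by omega)
    rw [← hT] at this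
    calc N < 8 * M * (T + 1) := this
      _ = 8 * (M * T) + 8 * M := by ring
  have hT1 : 1 ≤ T := by
    rcases Nat.eq_zero_or_pos T with h0 | h0
    · rw [h0] at h8T'
      omega
    · exact h0
  have hTR : (0 : ℝ) < T := by exact_mod_cast hT1
  have h8TR : 8 * ((M : ℝ) * T) ≤ N := by exact_mod_cast h8T
  have h8TR' : (N : ℝ) < 8 * (M * T) + 8 * M := by exact_mod_cast h8T'
  set J : ℤ := N / 64 with hJ
  have hJ1 : 64 * J ≤ N := by omega
  have hJ2 : (N : ℤ) ≤ 64 * J + 63 := by omega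
  have hJpos : 1 ≤ J := by omega
  -- points
  set k : ℤ × ℤ := (h + a, h + b) with hk
  set k' : ℤ × ℤ := (h + a + e1, h + b + e2) with hk'
  let m : ℕ → ℤ → ℤ × ℤ := fun τ j => (h + a + (τ : ℤ) * e1 + j * g1, h + b + (τ : ℤ) * e2 + j * g2)
  have hte : ∀ τ : ℕ, τ ≤ T → ∀ e : ℤ, |e| ≤ M → 8 * |(τ : ℤ) * e| ≤ N := by
    intro τ hτ e he
    rw [abs_mul]
    have h1 : |(τ : ℤ)| = τ := abs_of_nonneg (by positivity)
    rw [h1]
    have h2 : (τ : ℤ) * |e| ≤ T * M :=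
      mul_le_mul (by exact_mod_cast hτ) he (abs_nonneg _) (by positivity)
    have h3 : 8 * ((M : ℤ) * T) ≤ N := by exact_mod_cast h8T
    linarith [mul_comm (M : ℤ) T]
  have hjg : ∀ j : ℤ, |j| ≤ J → ∀ g : ℤ, |g| ≤ 1 → 64 * |j * g| ≤ N := by
    intro j hj g hg
    rw [abs_mul]
    have h2 : |j| * |g| ≤ J * 1 := mul_le_mul hj hg (abs_nonneg _) (by omega)
    linarith
  have hboxm : ∀ τ : ℕ, τ ≤ T → ∀ j : ℤ, |j| ≤ J → inbox N (m τ j) := by
    intro τ hτ j hj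
    have p1 := hte τ hτ e1 he1
    have p2 := hte τ hτ e2 he2
    have p3 := hjg j hj g1 hg1
    have p4 := hjg j hj g2 hg2
    have q1 := neg_abs_le ((τ : ℤ) * e1)
    have q2 := neg_abs_le ((τ : ℤ) * e2)
    have q3 := neg_abs_le (j * g1)
    have q4 := neg_abs_le (j * g2)
    have q1' := le_abs_self ((τ : ℤ) * e1)
    have q2' := le_abs_self ((τ : ℤ) * e2)
    have q3' := le_abs_self (j * g1)
    have q4' := le_abs_self (j * g2)
    simp only [m, inbox]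
    refine ⟨?_, ?_, ?_, ?_⟩ <;> omega
  have hboxk : inbox N k := by
    simp only [hk, inbox]; refine ⟨?_, ?_, ?_, ?_⟩ <;> omega
  have hboxk' : inbox N k' := by
    simp only [hk', inbox]; refine ⟨?_, ?_, ?_, ?_⟩ <;> omega
  have hbox0 : inbox N (h, h) := by
    simp only [inbox]; refine ⟨?_, ?_, ?_, ?_⟩ <;> omega
  have hboxT : inbox N (h + T * e1, h + T * e2) := by
    have p1 := hte T le_rfl e1 he1
    have p2 := hte T le_rfl e2 he2
    have q1 := neg_abs_le ((T : ℤ) * e1)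
    have q2 := neg_abs_le ((T : ℤ) * e2)
    have q1' := le_abs_self ((T : ℤ) * e1)
    have q2' := le_abs_self ((T : ℤ) * e2)
    simp only [inbox]
    refine ⟨?_, ?_, ?_, ?_⟩ <;> omega
  -- distances
  have hndkk' : nd k k' ≤ M := by
    simp only [nd, hk, hk']
    have e3 : h + a - (h + a + e1) = -e1 := by ring
    have e4 : h + b - (h + b + e2) = -e2 := by ring
    rw [e3, e4, abs_neg, abs_neg]
    exact max_le he1 he2
  have hne : k ≠ k' := by
    intro hcon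
    simp only [hk, hk', Prod.mk.injEq] at hcon
    have h1 : e1 = 0 := by omega
    have h2 : e2 = 0 := by omega
    rw [h1, h2] at hdet
    simp at hdet
  have hndup : ∀ τ : ℕ, ∀ j : ℤ, nd k (m τ j) ≤ τ * M + |j| := by
    intro τ j
    simp only [nd, hk, m]
    have e3 : h + a - (h + a + (τ : ℤ) * e1 + j * g1) = -((τ : ℤ) * e1 + j * g1) := by ring
    have e4 : h + b - (h + b + (τ : ℤ) * e2 + j * g2) = -((τ : ℤ) * e2 + j * g2) := by ring
    rw [e3, e4, abs_neg, abs_neg]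
    have h1 : |(τ : ℤ)| = τ := abs_of_nonneg (by positivity)
    apply max_le
    · refine (abs_add_le _ _).trans ?_
      rw [abs_mul, abs_mul, h1]
      have := mul_le_mul_of_nonneg_left he1 (show (0 : ℤ) ≤ τ by positivity)
      have := mul_le_mul_of_nonneg_left hg1 (abs_nonneg j)
      linarith
    · refine (abs_add_le _ _).trans ?_
      rw [abs_mul, abs_mul, h1]
      have := mul_le_mul_of_nonneg_left he2 (show (0 : ℤ) ≤ τ by positivity)
      have := mul_le_mul_of_nonneg_left hg2 (abs_nonneg j)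
      linarith
  have hndlo : ∀ τ : ℕ, ∀ j : ℤ, (τ : ℤ) * M - |j| ≤ nd k (m τ j) := by
    intro τ j
    simp only [nd, hk, m]
    have e3 : h + a - (h + a + (τ : ℤ) * e1 + j * g1) = -((τ : ℤ) * e1 + j * g1) := by ring
    have e4 : h + b - (h + b + (τ : ℤ) * e2 + j * g2) = -((τ : ℤ) * e2 + j * g2) := by ring
    rw [e3, e4, abs_neg, abs_neg]
    have h1 : |(τ : ℤ)| = τ := abs_of_nonneg (by positivity)
    rcases le_max_iff.mp heM with hh1 | hh1
    · refine le_trans ?_ (le_max_left _ _)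
      have h2 := abs_sub_abs_le_abs_sub ((τ : ℤ) * e1) (-(j * g1))
      rw [abs_neg, sub_neg_eq_add, abs_mul, abs_mul, h1] at h2
      have := mul_le_mul_of_nonneg_left hh1 (show (0 : ℤ) ≤ τ by positivity)
      have := mul_le_mul_of_nonneg_left hg1 (abs_nonneg j)
      linarith
    · refine le_trans ?_ (le_max_right _ _)
      have h2 := abs_sub_abs_le_abs_sub ((τ : ℤ) * e2) (-(j * g2))
      rw [abs_neg, sub_neg_eq_add, abs_mul, abs_mul, h1] at h2
      have := mul_le_mul_of_nonneg_left hh1 (show (0 : ℤ) ≤ τ by positivity)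
      have := mul_le_mul_of_nonneg_left hg2 (abs_nonneg j)
      linarith
  -- displacement differences
  obtain ⟨v1, hv1⟩ : ∃ x, x = u k' - u k := ⟨_, rfl⟩
  obtain ⟨v2, hv2⟩ : ∃ x, x = v k' - v k := ⟨_, rfl⟩
  have hv : |v1| ≤ δ ∧ |v2| ≤ δ := by
    rw [hv1, hv2, abs_sub_comm (u k'), abs_sub_comm (v k')]
    exact H.near k k' hboxk hboxk' (by omega)
  obtain ⟨p, hp⟩ : ∃ x, x = v1 * e2 - v2 * e1 := ⟨_, rfl⟩
  obtain ⟨q, hq⟩ : ∃ x, x = v1 * g2 - v2 * g1 := ⟨_, rfl⟩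
  have hcast : ∀ e : ℤ, |e| ≤ M → |(e : ℝ)| ≤ M := by
    intro e he
    have : ((|e| : ℤ) : ℝ) ≤ ((M : ℤ) : ℝ) := by exact_mod_cast he
    simpa using this
  have hcast1 : ∀ e : ℤ, |e| ≤ 1 → |(e : ℝ)| ≤ 1 := by
    intro e he
    have : ((|e| : ℤ) : ℝ) ≤ ((1 : ℤ) : ℝ) := by exact_mod_cast he
    simpa using this
  have hpb : |p| ≤ 2 * δ * M := by
    rw [hp]
    exact cross_le hδ.le hv.1 hv.2 (hcast e2 he2) (hcast e1 he1)
  have hqb : |q| ≤ 2 * δ := by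
    rw [hq]
    have := cross_le hδ.le hv.1 hv.2 (hcast1 g2 hg2) (hcast1 g1 hg1)
    linarith
  obtain ⟨E1, hE1⟩ : ∃ x, x = (e1 : ℝ) + v1 := ⟨_, rfl⟩
  obtain ⟨E2, hE2⟩ : ∃ x, x = (e2 : ℝ) + v2 := ⟨_, rfl⟩
  have hE1b : |E1| ≤ 2 * K := by
    rw [hE1]
    refine (abs_add_le _ _).trans ?_
    linarith [hcast e1 he1, hv.1, n.n5]
  have hE2b : |E2| ≤ 2 * K := by
    rw [hE2]
    refine (abs_add_le _ _).trans ?_
    linarith [hcast e2 he2, hv.2, n.n5]
  let R : ℕ → ℤ → ℝ := fun τ j => E1 * (v (m τ j) - v k) - E2 * (u (m τ j) - u k)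
  have hK2 : (0 : ℝ) ≤ 2 * K := by linarith
  have hDf : ∀ τ j, D u v k k' (m τ j) = (τ : ℝ) * p + j * (1 + q) + R τ j := by
    intro τ j
    have := D_formula u v k e1 e2 g1 g2 (τ : ℤ) j hdet
    simp only [R, m, hp, hq, hE1, hE2, hv1, hv2]
    simp only [hk, hk'] at this ⊢
    rw [this]
    push_cast
    ring
  have hR0 : ∀ τ j, τ ≤ T → |j| ≤ J → |R τ j| ≤ 4 * K * Γ := by
    intro τ j hτ hj
    have h1 := H.glob (m τ j) k (hboxm τ hτ j hj) hboxk
    have h2 := cross_le hK2 hE1b hE2b h1.2 h1.1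
    simp only [R]
    linarith
  have hstepR : ∀ τ j, τ < T → |j| ≤ J → |R (τ + 1) j - R τ j| ≤ 4 * K * δ := by
    intro τ j hτ hj
    have hnd : nd (m (τ + 1) j) (m τ j) ≤ M := by
      simp only [nd, m]
      push_cast
      have e3 : h + a + ((τ : ℤ) + 1) * e1 + j * g1 - (h + a + (τ : ℤ) * e1 + j * g1) = e1 := by ring
      have e4 : h + b + ((τ : ℤ) + 1) * e2 + j * g2 - (h + b + (τ : ℤ) * e2 + j * g2) = e2 := by ring
      rw [e3, e4]
      exact max_le he1 he2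
    have h1 := H.near (m (τ + 1) j) (m τ j) (hboxm (τ + 1) (by omega) j hj) (hboxm τ (by omega) j hj)
      (by omega)
    have h2 := cross_le hK2 hE1b hE2b h1.2 h1.1
    have e : R (τ + 1) j - R τ j = E1 * (v (m (τ + 1) j) - v (m τ j)) - E2 * (u (m (τ + 1) j) - u (m τ j)) := by
      simp only [R]; ring
    rw [e]
    linarith
  have hadjR : ∀ τ, τ ≤ T → |R τ 1 - R τ 0| ≤ 4 * K * δ ∧ |R τ (-1) - R τ 0| ≤ 4 * K * δ := by
    intro τ hτ
    have hgen : ∀ j : ℤ, |j| ≤ 1 → |R τ j - R τ 0| ≤ 4 * K * δ := by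
      intro j hj
      have hnd : nd (m τ j) (m τ 0) ≤ 1 := by
        simp only [nd, m]
        have e3 : h + a + (τ : ℤ) * e1 + j * g1 - (h + a + (τ : ℤ) * e1 + 0 * g1) = j * g1 := by ring
        have e4 : h + b + (τ : ℤ) * e2 + j * g2 - (h + b + (τ : ℤ) * e2 + 0 * g2) = j * g2 := by ring
        rw [e3, e4, abs_mul, abs_mul]
        apply max_le
        · calc |j| * |g1| ≤ 1 * 1 := mul_le_mul hj hg1 (abs_nonneg _) (by norm_num)
            _ = 1 := by norm_num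
        · calc |j| * |g2| ≤ 1 * 1 := mul_le_mul hj hg2 (abs_nonneg _) (by norm_num)
            _ = 1 := by norm_num
      have h1 := H.near (m τ j) (m τ 0) (hboxm τ hτ j (by omega)) (hboxm τ hτ 0 (by simp; omega))
        (by omega)
      have h2 := cross_le hK2 hE1b hE2b h1.2 h1.1
      have e : R τ j - R τ 0 = E1 * (v (m τ j) - v (m τ 0)) - E2 * (u (m τ j) - u (m τ 0)) := by
        simp only [R]; ring
      rw [e]
      linarith
    exact ⟨hgen 1 (by simp), hgen (-1) (by simp)⟩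
  -- τr
  set τr : ℕ := ⌈r * T⌉₊ with hτr
  have hτr1 : r * T ≤ τr := Nat.le_ceil _
  have hτr2 : (τr : ℝ) < r * T + 1 := Nat.ceil_lt_add_one (by positivity)
  have hMT : 1600 * (K + 3 : ℝ) - K ≤ M * T := by nlinarith
  have hTbig : 64 ≤ T := by
    have h1 : (N : ℤ) < 8 * (M * T) + 8 * M := by exact_mod_cast h8T'
    by_contra hcon
    push Not at hcon
    have h2 : M * T ≤ M * 63 := Nat.mul_le_mul_left _ (by omega)
    omega
  have hTbigR : (64 : ℝ) ≤ T := by exact_mod_cast hTbig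
  have hτrT : τr ≤ T := by
    have : (τr : ℝ) < T := by nlinarith
    exact_mod_cast this.le
  have hrN : r * N ≤ 8 * (r * (M * T)) + 8 * r * K := by nlinarith
  have hn7 := n.n7
  have hfar : ∀ τ j, T / 2 ≤ τ → τ ≤ T → |j| ≤ J →
      c / 2048 < |(τ : ℝ) * p + j * (1 + q) + R τ j| := by
    intro τ j h1 h2 hj
    rw [← hDf]
    have hlo := hndlo τ j
    have h3 : (N : ℤ) ≤ 32 * nd k (m τ j) := by
      have h4 : (T : ℤ) ≤ 2 * τ + 1 := by omega
      have h5 : (M : ℤ) * T ≤ M * (2 * τ + 1) := mul_le_mul_of_nonneg_left h4 (by positivity)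
      have h6 : (N : ℤ) < 8 * (M * T) + 8 * M := by exact_mod_cast h8T'
      have h7 : (M : ℤ) * (2 * τ + 1) = 2 * (τ * M) + M := by ring
      omega
    have h3R : (N : ℝ) ≤ 32 * nd k (m τ j) := by exact_mod_cast h3
    have h4 := H.area k k' (m τ j) hboxk hboxk' (hboxm τ h2 j hj) hne (by omega)
      (by nlinarith)
    have h5 : (1 / 32 : ℝ) ≤ (nd k (m τ j) : ℝ) / N := by
      rw [le_div_iff₀ hN0]; linarith
    have h6 : (1 / 32 : ℝ) ^ 2 ≤ ((nd k (m τ j) : ℝ) / N) ^ 2 := by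
      apply pow_le_pow_left₀ (by norm_num) h5
    nlinarith
  have hmid : ∀ τ, τr ≤ τ → τ ≤ T → 12 * K * δ < |(τ : ℝ) * p + (1 + q) + R τ 1| ∧
      12 * K * δ < |(τ : ℝ) * p - (1 + q) + R τ (-1)| := by
    intro τ h1 h2
    have hgen : ∀ j : ℤ, |j| = 1 → 12 * K * δ < |(τ : ℝ) * p + j * (1 + q) + R τ j| := by
      intro j hj
      rw [← hDf]
      have hlo := hndlo τ j
      rw [hj] at hlo
      have h3 : ((τ : ℝ) * M - 1) ≤ nd k (m τ j) := by exact_mod_cast hlo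
      have h1R : (τr : ℝ) ≤ τ := by exact_mod_cast h1
      have h4 : r * T * M ≤ (τ : ℝ) * M := mul_le_mul_of_nonneg_right (by linarith) (by linarith)
      have h5 : r * N / 16 ≤ nd k (m τ j) := by nlinarith
      have h6 := H.area k k' (m τ j) hboxk hboxk' (hboxm τ h2 j (by omega)) hne (by omega) h5
      have h7 : (r / 16 : ℝ) ≤ (nd k (m τ j) : ℝ) / N := by
        rw [le_div_iff₀ hN0]; linarith
      have h8 : (r / 16 : ℝ) ^ 2 ≤ ((nd k (m τ j) : ℝ) / N) ^ 2 := by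
        apply pow_le_pow_left₀ (by positivity) h7
      have h9 := n.n3
      nlinarith
    constructor
    · have := hgen 1 (by simp)
      simpa using this
    · have := hgen (-1) (by simp)
      have e : (τ : ℝ) * p + ((-1 : ℤ) : ℝ) * (1 + q) + R τ (-1) = (τ : ℝ) * p - (1 + q) + R τ (-1) := by
        push_cast; ring
      rw [e] at this
      exact this
  have hρ : |R τr 0| ≤ 1 / 8 := by
    have h1 : (nd (m τr 0) k : ℝ) ≤ r * N / 4 := by
      have h2 := hndup τr 0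
      have e : nd (m τr 0) k = nd k (m τr 0) := by
        simp only [nd]
        rw [abs_sub_comm, abs_sub_comm (m τr 0).2]
      rw [e]
      have h3 : (nd k (m τr 0) : ℝ) ≤ τr * M := by
        have : nd k (m τr 0) ≤ τr * M := by simpa using h2
        exact_mod_cast this
      nlinarith
    have h2 := H.mid (m τr 0) k (hboxm τr hτrT 0 (by simp; omega)) hboxk h1
    have h3 := cross_le hK2 hE1b hE2b h2.2 h2.1
    have h4 := n.n2
    simp only [R]
    linarith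
  have hKδ : 12 * K * δ < c / 4096 := by
    have h1 := n.n3
    have h2 : (r / 16 : ℝ) ^ 2 ≤ (1 / 64 : ℝ) ^ 2 := by
      apply pow_le_pow_left₀ (by positivity); linarith
    nlinarith
  have hlock := lock p q (4 * K * Γ) (4 * K * δ) (4 * K * δ) (6 * K * δ) (c / 2048) (12 * K * δ) (1 / 8)
    T τr J R (by positivity) hT1 hτrT (by linarith [n.n5]) (by nlinarith) hR0 hstepR hadjR
    (by
      have hJR : (N : ℝ) ≤ 64 * J + 63 := by exact_mod_cast hJ2
      have h1 : (T : ℝ) * |p| ≤ T * (2 * δ * M) := mul_le_mul_of_nonneg_left hpb hTR.le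
      have h5 := n.n5
      nlinarith [mul_nonneg hTR.le (show (0 : ℝ) ≤ M by linarith)])
    hJpos hfar (by nlinarith) hmid (by nlinarith) hρ
    (by
      have h1 : (τr : ℝ) / T ≤ r + 1 / T := by
        rw [div_le_iff₀ hTR]
        have : (r + 1 / T) * (T : ℝ) = r * T + 1 := by field_simp
        linarith
      have h2 : 0 ≤ 5 * (4 * K * Γ) + 5 := by positivity
      have h3 : (τr : ℝ) / T * (5 * (4 * K * Γ) + 5) ≤ (r + 1 / T) * (5 * (4 * K * Γ) + 5) :=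
        mul_le_mul_of_nonneg_right h1 h2
      have hKΓ : 1 ≤ K * Γ := by nlinarith
      have h4 : 5 * (4 * K * Γ) + 5 ≤ 25 * (K * Γ) := by nlinarith
      have h5 : (r + 1 / T) * (5 * (4 * K * Γ) + 5) ≤ (r + 1 / T) * (25 * (K * Γ)) :=
        mul_le_mul_of_nonneg_left h4 (by positivity)
      have h6 : r * (25 * (K * Γ)) ≤ 1 / 8 := by nlinarith [n.n1]
      have h7 : 1 / (T : ℝ) * (25 * (K * Γ)) ≤ 1 / 8 := by
        rw [one_div, inv_mul_le_iff₀ hTR]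
        have h8 := n.n8
        nlinarith
      nlinarith)
  -- conclusion
  have hbm := hboxm T le_rfl 0 (by simp; omega)
  have hd1 : |(v (m T 0) - v k) - (v (h + T * e1, h + T * e2) - v (h, h))| ≤ 2 * δ ∧
      |(u (m T 0) - u k) - (u (h + T * e1, h + T * e2) - u (h, h))| ≤ 2 * δ := by
    have hnd1 : nd (m T 0) (h + T * e1, h + T * e2) ≤ K + 3 := by
      simp only [nd, m]
      have e3 : h + a + (T : ℤ) * e1 + 0 * g1 - (h + T * e1) = a := by ring
      have e4 : h + b + (T : ℤ) * e2 + 0 * g2 - (h + T * e2) = b := by ring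
      rw [e3, e4, abs_of_nonneg ha0, abs_of_nonneg hb0]
      apply max_le <;> omega
    have hnd2 : nd k (h, h) ≤ K + 3 := by
      simp only [nd, hk]
      have e3 : h + a - h = a := by ring
      have e4 : h + b - h = b := by ring
      rw [e3, e4, abs_of_nonneg ha0, abs_of_nonneg hb0]
      apply max_le <;> omega
    have h1 := H.near _ _ hbm hboxT hnd1
    have h2 := H.near _ _ hboxk hbox0 hnd2
    obtain ⟨h1a, h1b⟩ := h1
    obtain ⟨h2a, h2b⟩ := h2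
    rw [abs_le] at h1a h1b h2a h2b
    constructor <;> rw [abs_le] <;> constructor <;> linarith [h1a.1, h1a.2, h1b.1, h1b.2, h2a.1, h2a.2, h2b.1, h2b.2]
  obtain ⟨V, hV⟩ : ∃ x, x = v (h + T * e1, h + T * e2) - v (h, h) := ⟨_, rfl⟩
  obtain ⟨U, hU⟩ : ∃ x, x = u (h + T * e1, h + T * e2) - u (h, h) := ⟨_, rfl⟩
  rw [← hV, ← hU] at hd1
  rw [← hV, ← hU]
  have hgl := H.glob (m T 0) k hbm hboxk
  have hmain : |(T : ℝ) * p + (e1 * V - e2 * U)| ≤ 2 := by
    have e : (T : ℝ) * p + (e1 * V - e2 * U) = ((T : ℝ) * p + R T 0) -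
        ((e1 * ((v (m T 0) - v k) - V) - e2 * ((u (m T 0) - u k) - U)) +
         (v1 * (v (m T 0) - v k) - v2 * (u (m T 0) - u k))) := by
      simp only [R, hE1, hE2]; ring
    rw [e]
    have h1 := cross_le (show (0 : ℝ) ≤ K by linarith) ((hcast e1 he1).trans hMKR) ((hcast e2 he2).trans hMKR) hd1.1 hd1.2
    have h2 := cross_le hδ.le hv.1 hv.2 hgl.2 hgl.1
    have h3 := abs_sub ((T : ℝ) * p + R T 0) ((e1 * ((v (m T 0) - v k) - V) - e2 * ((u (m T 0) - u k) - U)) +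
         (v1 * (v (m T 0) - v k) - v2 * (u (m T 0) - u k)))
    have h4 := abs_add_le (e1 * ((v (m T 0) - v k) - V) - e2 * ((u (m T 0) - u k) - U)) (v1 * (v (m T 0) - v k) - v2 * (u (m T 0) - u k))
    have h5 := n.n4
    linarith
  have hfin : (N : ℝ) * ((u k' - u k) * e2 - (v k' - v k) * e1) - -((N : ℝ) / T * (e1 * V - e2 * U)) =
      (N : ℝ) / T * ((T : ℝ) * p + (e1 * V - e2 * U)) := by
    rw [hp, hv1, hv2]
    field_simp
    ring
  rw [hfin, abs_mul, abs_of_pos (by positivity : (0 : ℝ) < (N : ℝ) / T)]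
  have hNT : (N : ℝ) / T ≤ 17 / 2 * M := by
    rw [div_le_iff₀ hTR]
    nlinarith
  calc (N : ℝ) / T * |(T : ℝ) * p + (e1 * V - e2 * U)| ≤ 17 / 2 * M * 2 :=
        mul_le_mul hNT hmain (abs_nonneg _) (by positivity)
    _ = 17 * M := by ring

end

end Pool.Agent.Lib.MP_a768d2_co.RG
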