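import Pool.Agent.Lib.MP_a768d2_coR.RgB

/-! # Perturbed grids: pigeonhole and the core theorem -/

namespace Pool.Agent.Lib.MP_a768d2_co.RG

noncomputable section

/-- `K` reals in `[-C, C]` which are pairwise at distance at least `d`: `(K - 1) d ≤ 2 C` -/
theorem pigeon (K : ℕ) (f : ℕ → ℝ) (C d : ℝ) (hd : 0 < d) (hC : 0 ≤ C) (h1 : ∀ i, i < K → |f i| ≤ C)
    (h2 : ∀ i j, i < j → j < K → d ≤ |f j - f i|) : ((K : ℝ) - 1) * d ≤ 2 * C := by
  by_contra hcon
  push Not at hcon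
  obtain ⟨m, hm⟩ : ∃ m : ℕ, m = ⌊2 * C / d⌋₊ + 1 := ⟨_, rfl⟩
  have hmK : m < K := by
    have h3 : (⌊2 * C / d⌋₊ : ℝ) ≤ 2 * C / d := Nat.floor_le (by positivity)
    have h4 : 2 * C / d < (K : ℝ) - 1 := by
      rw [div_lt_iff₀ hd]; exact hcon
    have h5 : (m : ℝ) < K := by
      rw [hm]; push_cast; linarith
    exact_mod_cast h5
  have hmap : ∀ i ∈ Finset.range K, ⌊(f i + C) / d⌋₊ ∈ Finset.range m := by
    intro i hi
    have h3 := abs_le.mp (h1 i (Finset.mem_range.mp hi))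
    rw [Finset.mem_range, hm, Nat.lt_succ_iff]
    apply Nat.floor_le_floor
    apply div_le_div_of_nonneg_right _ hd.le
    linarith [h3.2]
  obtain ⟨i, hi, j, hj, hij, heq⟩ := Finset.exists_ne_map_eq_of_card_lt_of_maps_to
    (s := Finset.range K) (t := Finset.range m) (by simpa using hmK) hmap
  have key : ∀ i j, i < j → j < K → ⌊(f i + C) / d⌋₊ = ⌊(f j + C) / d⌋₊ → False := by
    intro i j hij hj heq
    have hi1 := abs_le.mp (h1 i (by omega))
    have hj1 := abs_le.mp (h1 j hj)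
    have a1 : 0 ≤ (f i + C) / d := div_nonneg (by linarith [hi1.1]) hd.le
    have a2 : 0 ≤ (f j + C) / d := div_nonneg (by linarith [hj1.1]) hd.le
    have b1 := Nat.floor_le a1
    have b2 := Nat.floor_le a2
    have c1 := Nat.lt_floor_add_one ((f i + C) / d)
    have c2 := Nat.lt_floor_add_one ((f j + C) / d)
    rw [heq] at b1 c1
    have h3 := h2 i j hij hj
    have h4 : |f j - f i| < d := by
      have e : f j - f i = d * ((f j + C) / d - (f i + C) / d) := by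
        field_simp; ring
      rw [e, abs_mul, abs_of_pos hd]
      have : |(f j + C) / d - (f i + C) / d| < 1 := by
        rw [abs_lt]; constructor <;> linarith
      nlinarith
    linarith
  rcases lt_or_gt_of_ne hij with h | h
  · exact key i j h (Finset.mem_range.mp hj) heq
  · exact key j i h (Finset.mem_range.mp hi) heq.symm

/-- (S5): two points of the base row and the far point of this row -/
theorem S5 {N K : ℕ} {Γ δ r γ c : ℝ} {u v : ℤ × ℤ → ℝ} (H : Hyp N K Γ δ r γ c u v)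
    (n : Num N K Γ δ r γ c) (a a' : ℤ) (ha0 : 0 ≤ a) (haa' : a < a') (ha' : a' ≤ K)
    (h : ℤ) (hh : h = (N / 2 : ℕ)) (T : ℕ) (hT : T = N / 8) :
    8 * c / 100 ≤ |(N : ℝ) * (v (h + a', h) - v (h + a, h)) +
      (a' - a) * -((N : ℝ) / T * (v (h + T, h) - v (h, h)))| := by
  have hK1 := n.K1
  have hNge := n.N_ge
  have hNgeN : 12800 * (K + 3) ≤ N := by exact_mod_cast hNge
  have hr200 := n.r_le
  have hr := n.hr
  have hδ := n.hδ
  have hΓ := n.hΓ
  have hc := n.hc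
  have hN0 : (0 : ℝ) < N := by linarith
  have hT1 : 8 * T ≤ N := by omega
  have hT2 : N ≤ 8 * T + 7 := by omega
  have hT9 : N ≤ 9 * T := by omega
  have hT1R : 8 * (T : ℝ) ≤ N := by exact_mod_cast hT1
  have hT9R : (N : ℝ) ≤ 9 * T := by exact_mod_cast hT9
  have hT0 : (0 : ℝ) < T := by linarith
  have b1 : inbox N (h + a, h) := by simp only [inbox]; refine ⟨?_, ?_, ?_, ?_⟩ <;> omega
  have b2 : inbox N (h + a', h) := by simp only [inbox]; refine ⟨?_, ?_, ?_, ?_⟩ <;> omega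
  have b3 : inbox N (h + a + T, h) := by simp only [inbox]; refine ⟨?_, ?_, ?_, ?_⟩ <;> omega
  have b4 : inbox N (h + T, h) := by simp only [inbox]; refine ⟨?_, ?_, ?_, ?_⟩ <;> omega
  have b5 : inbox N (h, h) := by simp only [inbox]; refine ⟨?_, ?_, ?_, ?_⟩ <;> omega
  have nd1 : nd (h + a, h) (h + a', h) = a' - a := by
    simp only [nd]
    rw [show h + a - (h + a') = -(a' - a) by ring, abs_neg, abs_of_pos (by omega : 0 < a' - a), sub_self,
      abs_zero, max_eq_left (by omega)]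
  have nd2 : nd (h + a, h) (h + a + T, h) = T := by
    simp only [nd]
    rw [show h + a - (h + a + (T : ℤ)) = -(T : ℤ) by ring, abs_neg, abs_of_nonneg (by omega : (0 : ℤ) ≤ T), sub_self,
      abs_zero, max_eq_left (by omega)]
  have hne : ((h + a, h) : ℤ × ℤ) ≠ (h + a', h) := by
    intro hcon
    simp only [Prod.mk.injEq] at hcon
    omega
  have har := H.area (h + a, h) (h + a', h) (h + a + T, h) b1 b2 b3 hne (by rw [nd1]; omega)
    (by rw [nd2]; push_cast; nlinarith)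
  rw [nd2] at har
  push_cast at har
  obtain ⟨v1, hv1⟩ : ∃ x, x = u (h + a', h) - u (h + a, h) := ⟨_, rfl⟩
  obtain ⟨v2, hv2⟩ : ∃ x, x = v (h + a', h) - v (h + a, h) := ⟨_, rfl⟩
  obtain ⟨dv, hdv⟩ : ∃ x, x = v (h + a + T, h) - v (h + a, h) := ⟨_, rfl⟩
  obtain ⟨du, hdu⟩ : ∃ x, x = u (h + a + T, h) - u (h + a, h) := ⟨_, rfl⟩
  obtain ⟨V, hV⟩ : ∃ x, x = v (h + T, h) - v (h, h) := ⟨_, rfl⟩
  have hD : D u v (h + a, h) (h + a', h) (h + a + T, h) =
      (a' - a) * V - T * v2 + ((a' - a) * (dv - V) + (v1 * dv - v2 * du)) := by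
    unfold D
    simp only
    rw [← hv1, ← hv2, ← hdv, ← hdu]
    push_cast
    ring
  have hv := H.near _ _ b1 b2 (by rw [nd1]; omega)
  rw [abs_sub_comm, ← hv1, abs_sub_comm, ← hv2] at hv
  have hg := H.glob _ _ b3 b1
  rw [← hdu, ← hdv] at hg
  have hdV : |dv - V| ≤ 2 * δ := by
    have nd3 : nd (h + a + T, h) (h + T, h) ≤ K + 3 := by
      simp only [nd]
      rw [show h + a + (T : ℤ) - (h + T) = a by ring, sub_self, abs_zero, abs_of_nonneg ha0, max_eq_left ha0]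
      omega
    have nd4 : nd (h + a, h) (h, h) ≤ K + 3 := by
      simp only [nd]
      rw [show h + a - h = a by ring, sub_self, abs_zero, abs_of_nonneg ha0, max_eq_left ha0]
      omega
    have h1 := (H.near _ _ b3 b4 nd3).2
    have h2 := (H.near _ _ b1 b5 nd4).2
    rw [hdv, hV]
    rw [abs_le] at h1 h2 ⊢
    constructor <;> linarith [h1.1, h1.2, h2.1, h2.2]
  have haaR : (0 : ℝ) ≤ (a' : ℝ) - a := by
    have : (a : ℝ) ≤ a' := by exact_mod_cast haa'.le
    linarith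
  have haaK : (a' : ℝ) - a ≤ K := by
    have : a' - a ≤ K := by omega
    exact_mod_cast this
  have herr : |(a' - a : ℝ) * (dv - V) + (v1 * dv - v2 * du)| ≤ c / 1000 := by
    refine (abs_add_le _ _).trans ?_
    rw [abs_mul, abs_of_nonneg haaR]
    have h1 : ((a' : ℝ) - a) * |dv - V| ≤ K * (2 * δ) := mul_le_mul haaK hdV (abs_nonneg _) (by linarith)
    have h2 := cross_le hδ.le hv.1 hv.2 hg.2 hg.1
    linarith [n.n6]
  have h81 : c / 81 ≤ c * ((T : ℝ) / N) ^ 2 := by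
    have h1 : (1 / 9 : ℝ) ≤ (T : ℝ) / N := by rw [le_div_iff₀ hN0]; linarith
    have h2 : (1 / 9 : ℝ) ^ 2 ≤ ((T : ℝ) / N) ^ 2 := pow_le_pow_left₀ (by norm_num) h1 2
    nlinarith
  have hmain : c / 100 ≤ |(a' - a : ℝ) * V - T * v2| := by
    have h1 := har
    rw [hD] at h1
    have h2 := abs_add_le ((a' - a : ℝ) * V - T * v2) ((a' - a : ℝ) * (dv - V) + (v1 * dv - v2 * du))
    have h3 : c / 100 ≤ c / 81 - c / 1000 := by linarith
    linarith
  rw [← hv2, ← hV]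
  have e : (N : ℝ) * v2 + (a' - a) * -((N : ℝ) / T * V) = -((N : ℝ) / T * ((a' - a : ℝ) * V - T * v2)) := by
    field_simp
    ring
  rw [e, abs_neg, abs_mul, abs_of_pos (by positivity : (0 : ℝ) < (N : ℝ) / T)]
  have h8 : (8 : ℝ) ≤ (N : ℝ) / T := by rw [le_div_iff₀ hT0]; linarith
  calc 8 * c / 100 = 8 * (c / 100) := by ring
    _ ≤ (N : ℝ) / T * |(a' - a : ℝ) * V - T * v2| :=
      mul_le_mul h8 hmain (by positivity) (by positivity)

/-- CORE THEOREM.  `β` controls the variation of the displacement between far points in the directions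
`(k, 1)` and `(1, 0)`. -/
theorem core {N K : ℕ} {Γ δ r γ c : ℝ} {u v : ℤ × ℤ → ℝ} (H : Hyp N K Γ δ r γ c u v)
    (n : Num N K Γ δ r γ c) (β : ℝ)
    (hβ : ∀ k : ℕ, 1 ≤ k → k ≤ K → (k : ℝ) *
      |v (((N / 2 : ℕ) : ℤ) + (N / (8 * k) : ℕ) * k, ((N / 2 : ℕ) : ℤ) + (N / (8 * k) : ℕ)) -
        v (((N / 2 : ℕ) : ℤ) + (N / 8 : ℕ), ((N / 2 : ℕ) : ℤ))| ≤ β)
    (hbig : 2 * (400 * Γ + 9 * β) < ((K : ℝ) - 1) * (8 * c / 100)) : False := by
  have hK1 := n.K1
  have hNge := n.N_ge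
  have hNgeN : 12800 * (K + 3) ≤ N := by exact_mod_cast hNge
  have hr := n.hr
  have hδ := n.hδ
  have hΓ := n.hΓ
  have hc := n.hc
  have hK := n.hK
  have hN0 : (0 : ℝ) < N := by linarith
  obtain ⟨h, hh⟩ : ∃ h : ℤ, h = (N / 2 : ℕ) := ⟨_, rfl⟩
  obtain ⟨T, hTdef⟩ : ∃ T : ℕ → ℕ, ∀ k, T k = N / (8 * k) := ⟨fun k => N / (8 * k), fun _ => rfl⟩
  have hTk : ∀ k : ℕ, 1 ≤ k → k ≤ K → 8 * ((k : ℝ) * T k) ≤ N ∧ (N : ℝ) < 8 * (k * T k) + 8 * k ∧ 1 ≤ T k := by
    intro k h1 h2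
    have h3 : 8 * (k * T k) ≤ N := by
      rw [hTdef]
      calc 8 * (k * (N / (8 * k))) = (8 * k) * (N / (8 * k)) := by ring
        _ ≤ N := Nat.mul_div_le _ _
    have h4 : N < 8 * (k * T k) + 8 * k := by
      have := Nat.lt_mul_div_succ N (show 0 < 8 * k by omega)
      rw [← hTdef] at this
      calc N < 8 * k * (T k + 1) := this
        _ = 8 * (k * T k) + 8 * k := by ring
    refine ⟨by exact_mod_cast h3, by exact_mod_cast h4, ?_⟩
    rcases Nat.eq_zero_or_pos (T k) with h0 | h0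
    · rw [h0] at h4; omega
    · exact h0
  -- notation
  obtain ⟨W1, hW1⟩ : ∃ W : ℕ → ℕ → ℝ, ∀ a b, W a b = N * u (h + a, h + b) := ⟨_, fun _ _ => rfl⟩
  obtain ⟨W2, hW2⟩ : ∃ W : ℕ → ℕ → ℝ, ∀ a b, W a b = N * v (h + a, h + b) := ⟨_, fun _ _ => rfl⟩
  obtain ⟨V, hV⟩ : ∃ V : ℕ → ℝ, ∀ k, V k = v (h + T k * k, h + T k) - v (h, h) := ⟨_, fun _ => rfl⟩
  obtain ⟨U, hU⟩ : ∃ V : ℕ → ℝ, ∀ k, V k = u (h + T k * k, h + T k) - u (h, h) := ⟨_, fun _ => rfl⟩
  obtain ⟨V0, hV0⟩ : ∃ x, x = v (h + T 1, h) - v (h, h) := ⟨_, rfl⟩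
  obtain ⟨U1, hU1⟩ : ∃ x, x = u (h, h + T 1) - u (h, h) := ⟨_, rfl⟩
  obtain ⟨h10, hh10⟩ : ∃ x, x = -((N : ℝ) / T 1 * V0) := ⟨_, rfl⟩
  obtain ⟨h01, hh01⟩ : ∃ x, x = (N : ℝ) / T 1 * U1 := ⟨_, rfl⟩
  obtain ⟨hk, hhk⟩ : ∃ f : ℕ → ℝ, ∀ k, f k = -((N : ℝ) / T k * (k * V k - U k)) := ⟨_, fun _ => rfl⟩
  have hT1 : T 1 = N / (8 * 1) := hTdef 1
  -- A1
  have A1 : ∀ a b : ℕ, a ≤ K - 1 → b ≤ 2 → |W2 (a + 1) b - W2 a b + h10| ≤ 17 := by
    intro a b ha hb
    have := S3gen H n 1 le_rfl hK 1 0 0 1 (by simp) (by simp) (by simp) (by norm_num) (by simp) (by simp)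
      a b (by omega) (by omega) (by omega) (by omega) (by omega) (by omega) (by omega) (by omega) h hh
      (T 1) (by rw [hT1])
    rw [hW2, hW2, hh10, hV0]
    have e : (N : ℝ) * v (h + ((a + 1 : ℕ) : ℤ), h + (b : ℤ)) - N * v (h + (a : ℤ), h + (b : ℤ)) +
        -((N : ℝ) / T 1 * (v (h + T 1, h) - v (h, h))) =
        -((N : ℝ) * ((u (h + a + 1, h + b + 0) - u (h + a, h + b)) * ((0 : ℤ) : ℝ) -
          (v (h + a + 1, h + b + 0) - v (h + a, h + b)) * ((1 : ℤ) : ℝ)) -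
          -((N : ℝ) / T 1 * (((1 : ℤ) : ℝ) * (v (h + T 1 * 1, h + T 1 * 0) - v (h, h)) -
            ((0 : ℤ) : ℝ) * (u (h + T 1 * 1, h + T 1 * 0) - u (h, h))))) := by
      have e1 : h + ((a + 1 : ℕ) : ℤ) = h + a + 1 := by push_cast; ring
      rw [e1, add_zero, mul_one, mul_zero, add_zero]
      push_cast
      ring
    rw [e, abs_neg]
    simpa using this
  have A2 : ∀ a b : ℕ, a ≤ K - 1 + 1 → b ≤ 1 → |W1 a (b + 1) - W1 a b - h01| ≤ 17 := by
    intro a b ha hb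
    have := S3gen H n 1 le_rfl hK 0 1 (-1) 0 (by simp) (by simp) (by simp) (by norm_num) (by simp) (by simp)
      a b (by omega) (by omega) (by omega) (by omega) (by omega) (by omega) (by omega) (by omega) h hh
      (T 1) (by rw [hT1])
    rw [hW1, hW1, hh01, hU1]
    have e : (N : ℝ) * u (h + (a : ℤ), h + ((b + 1 : ℕ) : ℤ)) - N * u (h + (a : ℤ), h + (b : ℤ)) -
        ((N : ℝ) / T 1 * (u (h, h + T 1) - u (h, h))) =
        ((N : ℝ) * ((u (h + a + 0, h + b + 1) - u (h + a, h + b)) * ((1 : ℤ) : ℝ) -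
          (v (h + a + 0, h + b + 1) - v (h + a, h + b)) * ((0 : ℤ) : ℝ)) -
          -((N : ℝ) / T 1 * (((0 : ℤ) : ℝ) * (v (h + T 1 * 0, h + T 1 * 1) - v (h, h)) -
            ((1 : ℤ) : ℝ) * (u (h + T 1 * 0, h + T 1 * 1) - u (h, h))))) := by
      have e1 : h + ((b + 1 : ℕ) : ℤ) = h + b + 1 := by push_cast; ring
      rw [e1, add_zero, mul_one, mul_zero, add_zero]
      push_cast
      ring
    rw [e]
    simpa using this
  have A3 : ∀ i a b : ℕ, 1 ≤ i → a + i ≤ K - 1 + 1 → b ≤ 1 →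
      |(W1 (a + i) (b + 1) - W1 a b) - i * (W2 (a + i) (b + 1) - W2 a b) - hk i| ≤ 17 * i := by
    intro i a b hi hai hb
    have := S3gen H n i hi (by omega) i 1 (-1) 0 (by simp) (by simp; omega) (by simp) (by norm_num) (by simp) (by simp)
      a b (by omega) (by omega) (by omega) (by omega) (by omega) (by omega) (by omega) (by omega) h hh
      (T i) (hTdef i)
    rw [hW1, hW1, hW2, hW2, hhk, hV, hU]
    have e : (N : ℝ) * u (h + ((a + i : ℕ) : ℤ), h + ((b + 1 : ℕ) : ℤ)) - N * u (h + (a : ℤ), h + (b : ℤ)) -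
        i * ((N : ℝ) * v (h + ((a + i : ℕ) : ℤ), h + ((b + 1 : ℕ) : ℤ)) - N * v (h + (a : ℤ), h + (b : ℤ))) -
        -((N : ℝ) / T i * (i * (v (h + T i * i, h + T i) - v (h, h)) - (u (h + T i * i, h + T i) - u (h, h)))) =
        ((N : ℝ) * ((u (h + a + i, h + b + 1) - u (h + a, h + b)) * ((1 : ℤ) : ℝ) -
          (v (h + a + i, h + b + 1) - v (h + a, h + b)) * (((i : ℕ) : ℤ) : ℝ)) -
          -((N : ℝ) / T i * ((((i : ℕ) : ℤ) : ℝ) * (v (h + T i * i, h + T i * 1) - v (h, h)) -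
            ((1 : ℤ) : ℝ) * (u (h + T i * i, h + T i * 1) - u (h, h))))) := by
      have e1 : h + ((b + 1 : ℕ) : ℤ) = h + b + 1 := by push_cast; ring
      have e2 : h + ((a + i : ℕ) : ℤ) = h + a + i := by push_cast; ring
      rw [e1, e2, mul_one]
      push_cast
      ring
    rw [e]
    exact this
  -- bounds
  have hbox : ∀ x y : ℤ, 0 ≤ x → 0 ≤ y → 4 * x ≤ N → 4 * y ≤ N → inbox N (h + x, h + y) := by
    intro x y h1 h2 h3 h4
    simp only [inbox]
    refine ⟨?_, ?_, ?_, ?_⟩ <;> omega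
  have hbox0 : inbox N (h, h) := by
    have := hbox 0 0 le_rfl le_rfl (by omega) (by omega)
    simpa using this
  have hTb : ∀ k : ℕ, 1 ≤ k → k ≤ K → inbox N (h + T k * k, h + T k) := by
    intro k h1 h2
    have h3 := (hTk k h1 h2).1
    have h4 : 8 * ((k : ℤ) * T k) ≤ N := by exact_mod_cast h3
    have h5 : (T k : ℤ) ≤ k * T k := by
      have : (1 : ℤ) ≤ k := by exact_mod_cast h1
      nlinarith [show (0 : ℤ) ≤ T k by positivity]
    apply hbox
    · positivity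
    · positivity
    · rw [mul_comm]; linarith [show (0 : ℤ) ≤ (k : ℤ) * T k by positivity]
    · linarith [show (0 : ℤ) ≤ (T k : ℤ) by positivity]
  have hUV : ∀ k : ℕ, 1 ≤ k → k ≤ K → |U k| ≤ Γ ∧ |V k| ≤ Γ := by
    intro k h1 h2
    rw [hU, hV]
    exact H.glob _ _ (hTb k h1 h2) hbox0
  have hT8 : 8 * (T 1 : ℤ) ≤ N := by rw [hT1]; omega
  have hV0b : |V0| ≤ Γ := by
    rw [hV0]
    have := hbox (T 1) 0 (by positivity) le_rfl (by omega) (by omega)
    rw [add_zero] at this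
    exact (H.glob _ _ this hbox0).2
  have hU1b : |U1| ≤ Γ := by
    rw [hU1]
    have := hbox 0 (T 1) le_rfl (by positivity) (by omega) (by omega)
    rw [add_zero] at this
    exact (H.glob _ _ this hbox0).1
  have hA : ∀ k : ℕ, 1 ≤ k → k ≤ K → 8 ≤ (N : ℝ) / (k * T k) ∧ (N : ℝ) / (k * T k) ≤ 8 + 128 * K / N := by
    intro k h1 h2
    obtain ⟨h3, h4, h5⟩ := hTk k h1 h2
    have hk1 : (1 : ℝ) ≤ k := by exact_mod_cast h1
    have hkK : (k : ℝ) ≤ K := by exact_mod_cast h2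
    have hT1' : (1 : ℝ) ≤ T k := by exact_mod_cast h5
    have hpos : (0 : ℝ) < k * T k := by positivity
    constructor
    · rw [le_div_iff₀ hpos]; linarith
    · rw [div_le_iff₀ hpos]
      have h6 : (N : ℝ) / 9 ≤ k * T k := by linarith
      have h7 : 128 * (K : ℝ) / N * (N / 9) ≤ 128 * (K : ℝ) / N * (k * T k) :=
        mul_le_mul_of_nonneg_left h6 (by positivity)
      have h8 : 128 * (K : ℝ) / N * (N / 9) = 128 * K / 9 := by field_simp
      nlinarith
  have hKN : 128 * (K : ℝ) / N ≤ 1 / 2 := by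
    rw [div_le_iff₀ hN0]; linarith
  have hβ0 : 0 ≤ β := by
    have := hβ 1 le_rfl hK
    exact le_trans (by positivity) this
  -- final bound
  have hψ : ∀ k : ℕ, k < K → |W2 k 0 - W2 0 0 + k * h10| ≤ 400 * Γ + 9 * β := by
    intro k hkK
    rcases Nat.eq_zero_or_pos k with h0 | h1
    · subst h0
      simp
      positivity
    have hkK' : k ≤ K := by omega
    have hr := rigid (K - 1) W1 W2 h10 h01 hk A1 A2 A3 k h1 (by omega)
    have hk1 : (1 : ℝ) ≤ k := by exact_mod_cast h1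
    have hk0 : (0 : ℝ) < k := by linarith
    have hkKR : (k : ℝ) ≤ K := by exact_mod_cast hkK'
    obtain ⟨hA1, hA2⟩ := hA k h1 hkK'
    obtain ⟨hB1, hB2⟩ := hA 1 le_rfl hK
    rw [Nat.cast_one, one_mul] at hB1 hB2
    obtain ⟨_, _, hTkpos⟩ := hTk k h1 hkK'
    obtain ⟨_, _, hT1pos⟩ := hTk 1 le_rfl hK
    have hTk0 : (0 : ℝ) < T k := by exact_mod_cast hTkpos
    have hT10 : (0 : ℝ) < T 1 := by exact_mod_cast hT1pos
    obtain ⟨Ak, hAk⟩ : ∃ x, x = (N : ℝ) / (k * T k) := ⟨_, rfl⟩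
    obtain ⟨A0, hA0⟩ : ∃ x, x = (N : ℝ) / T 1 := ⟨_, rfl⟩
    rw [← hAk] at hA1 hA2
    rw [← hA0] at hB1 hB2
    have e1 : hk k / k = -(Ak * (k * V k - U k)) := by
      rw [hhk, hAk]; field_simp
    have e2 : h10 = -(A0 * V0) := by rw [hh10, hA0]
    have e3 : h01 = A0 * U1 := by rw [hh01, hA0]
    have e4 : hk 1 = -(A0 * (V 1 - U 1)) := by rw [hhk, hA0, Nat.cast_one, one_mul]
    have hβk : (k : ℝ) * |V k - V0| ≤ β := by
      have := hβ k h1 hkK'
      rw [← hTdef k, ← hh] at this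
      have e5 : V k - V0 = v (h + T k * k, h + T k) - v (h + (N / 8 : ℕ), h) := by
        rw [hV, hV0, hT1, mul_one]; ring
      rw [e5]
      exact this
    obtain ⟨hUk, hVk⟩ := hUV k h1 hkK'
    obtain ⟨hU1', hV1'⟩ := hUV 1 le_rfl hK
    have hAk9 : Ak ≤ 17 / 2 := by linarith
    have hA09 : A0 ≤ 17 / 2 := by linarith
    -- the terms
    have t1 : |hk k / k - k * h10| ≤ 9 * β + 1 + 9 * Γ := by
      have e5 : hk k / k - k * h10 = -(Ak * (k * (V k - V0))) + Ak * U k - k * ((Ak - A0) * V0) := by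
        rw [e1, e2]; ring
      rw [e5]
      have s1 : |-(Ak * (k * (V k - V0)))| ≤ 9 * β := by
        rw [abs_neg, abs_mul, abs_mul, abs_of_pos hk0, abs_of_pos (by linarith : (0 : ℝ) < Ak)]
        have := mul_le_mul hAk9 hβk (by positivity) (by norm_num)
        linarith
      have s2 : |Ak * U k| ≤ 9 * Γ := by
        rw [abs_mul, abs_of_pos (by linarith : (0 : ℝ) < Ak)]
        have := mul_le_mul hAk9 hUk (abs_nonneg _) (by norm_num)
        linarith
      have s3 : |(k : ℝ) * ((Ak - A0) * V0)| ≤ 1 := by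
        rw [abs_mul, abs_mul, abs_of_pos hk0]
        have s4 : |Ak - A0| ≤ 128 * K / N := by
          rw [abs_le]; constructor <;> linarith
        have s5 : |Ak - A0| * |V0| ≤ 128 * K / N * Γ := mul_le_mul s4 hV0b (abs_nonneg _) (by positivity)
        have s6 : (k : ℝ) * (|Ak - A0| * |V0|) ≤ K * (128 * K / N * Γ) :=
          mul_le_mul hkKR s5 (by positivity) (by positivity)
        have s7 : (K : ℝ) * (128 * K / N * Γ) ≤ 1 := by
          have e6 : (K : ℝ) * (128 * K / N * Γ) = 128 * K ^ 2 * Γ / N := by ring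
          rw [e6, div_le_one hN0]
          have := n.n8
          nlinarith [sq_nonneg (K : ℝ)]
        linarith
      have s8 := abs_sub (-(Ak * (k * (V k - V0))) + Ak * U k) (k * ((Ak - A0) * V0))
      have s9 := abs_add_le (-(Ak * (k * (V k - V0)))) (Ak * U k)
      linarith
    have t2 : |hk 1| ≤ 17 * Γ := by
      rw [e4, abs_neg, abs_mul, abs_of_pos (by linarith : (0 : ℝ) < A0)]
      have : |V 1 - U 1| ≤ 2 * Γ := (abs_sub _ _).trans (by linarith)
      have := mul_le_mul hA09 this (abs_nonneg _) (by norm_num)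
      linarith
    have t3 : |h01| ≤ 9 * Γ := by
      rw [e3, abs_mul, abs_of_pos (by linarith : (0 : ℝ) < A0)]
      have := mul_le_mul hA09 hU1b (abs_nonneg _) (by norm_num)
      linarith
    have t4 : |h10| ≤ 9 * Γ := by
      rw [e2, abs_neg, abs_mul, abs_of_pos (by linarith : (0 : ℝ) < A0)]
      have := mul_le_mul hA09 hV0b (abs_nonneg _) (by norm_num)
      linarith
    have t5 : |h01 / k| ≤ 9 * Γ := by
      rw [abs_div, abs_of_pos hk0]
      exact (div_le_self (abs_nonneg _) hk1).trans t3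
    rw [abs_le] at hr t1 t2 t3 t4 t5 ⊢
    constructor <;> linarith [hr.1, hr.2, t1.1, t1.2, t2.1, t2.2, t3.1, t3.2, t4.1, t4.2, t5.1, t5.2]
  have hpg := pigeon K (fun k => W2 k 0 - W2 0 0 + k * h10) (400 * Γ + 9 * β) (8 * c / 100)
    (by positivity) (by positivity) hψ (by
      intro i j hij hj
      have := S5 H n i j (by omega) (by omega) (by omega) h hh (T 1) (by rw [hT1, mul_one])
      have e : (W2 j 0 - W2 0 0 + j * h10) - (W2 i 0 - W2 0 0 + i * h10) =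
          (N : ℝ) * (v (h + j, h) - v (h + i, h)) + (((j : ℤ) : ℝ) - ((i : ℤ) : ℝ)) *
            -((N : ℝ) / T 1 * (v (h + T 1, h) - v (h, h))) := by
        rw [hW2 j, hW2 0, hW2 i, hh10, hV0]
        simp only [Nat.cast_zero, add_zero, Int.cast_natCast]
        ring
      rw [e]
      exact this)
  linarith

end

end Pool.Agent.Lib.MP_a768d2_co.RG
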