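import Pool.Agent.Lib.MP_a768d2_coR.RgC
import Pool.Agent.Lib.MP_a768d2_co.GeoB

/-! # Perturbed grids: from points of the plane to lattice coordinates -/

namespace Pool.Agent.Lib.MP_a768d2_co.RG

noncomputable section

/-- the defect of a pair of labelled points -/
def df (y : ℕ → ℕ → ℂ) (a b : ℂ) (i j i' j' : ℕ) : ℝ :=
  ‖y i j - y i' j' - ((((i : ℝ) - i' : ℝ) : ℂ) * a + (((j : ℝ) - j' : ℝ) : ℂ) * b)‖

theorem det2_lin (a b : ℂ) (α β α' β' : ℝ) :
    det2 ((α : ℂ) * a + (β : ℂ) * b) ((α' : ℂ) * a + (β' : ℂ) * b) = (α * β' - β * α') * det2 a b := by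
  unfold det2
  simp only [Complex.add_re, Complex.mul_re, Complex.ofReal_re, Complex.ofReal_im, zero_mul,
    sub_zero, Complex.add_im, Complex.mul_im, add_zero]
  ring

/-- coordinates of the labelled points -/
theorem exists_uv {n : ℕ} (hn : 1 ≤ n) (y : ℕ → ℕ → ℂ) (a b : ℂ) (C : ℝ) (hC : 1 ≤ C)
    (hB : Basis2 C n a b) (N : ℕ) : ∃ u v : ℤ × ℤ → ℝ,
      (∀ k l, inbox N k → inbox N l → y k.1.toNat k.2.toNat - y l.1.toNat l.2.toNat =
        (((((k.1 - l.1 : ℤ) : ℝ) + (u k - u l) : ℝ)) : ℂ) * a +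
        (((((k.2 - l.2 : ℤ) : ℝ) + (v k - v l) : ℝ)) : ℂ) * b) ∧
      (∀ k l, inbox N k → inbox N l → ∀ ρ : ℝ,
        df y a b k.1.toNat k.2.toNat l.1.toNat l.2.toNat ≤ ρ / Real.sqrt n →
        |u k - u l| ≤ C ^ 2 * ρ ∧ |v k - v l| ≤ C ^ 2 * ρ) := by
  have hC0 : 0 < C := by linarith
  have h1 : ∀ k : ℤ × ℤ, ∃ αβ : ℝ × ℝ, y k.1.toNat k.2.toNat - (((k.1 : ℝ) : ℂ) * a + ((k.2 : ℝ) : ℂ) * b) =
      (αβ.1 : ℂ) * a + (αβ.2 : ℂ) * b := by
    intro k
    obtain ⟨α, β, h, _, _⟩ := exists_coord hC0 hn hB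
      (y k.1.toNat k.2.toNat - (((k.1 : ℝ) : ℂ) * a + ((k.2 : ℝ) : ℂ) * b))
    exact ⟨(α, β), h⟩
  choose αβ hαβ using h1
  have key : ∀ k l : ℤ × ℤ, y k.1.toNat k.2.toNat - y l.1.toNat l.2.toNat =
        (((((k.1 - l.1 : ℤ) : ℝ) + ((αβ k).1 - (αβ l).1) : ℝ)) : ℂ) * a +
        (((((k.2 - l.2 : ℤ) : ℝ) + ((αβ k).2 - (αβ l).2) : ℝ)) : ℂ) * b := by
    intro k l
    have e1 := hαβ k
    have e2 := hαβ l
    have e3 : y k.1.toNat k.2.toNat = (((k.1 : ℝ) : ℂ) * a + ((k.2 : ℝ) : ℂ) * b) +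
        (((αβ k).1 : ℂ) * a + ((αβ k).2 : ℂ) * b) := by rw [← e1]; ring
    have e4 : y l.1.toNat l.2.toNat = (((l.1 : ℝ) : ℂ) * a + ((l.2 : ℝ) : ℂ) * b) +
        (((αβ l).1 : ℂ) * a + ((αβ l).2 : ℂ) * b) := by rw [← e2]; ring
    rw [e3, e4]
    push_cast
    ring
  refine ⟨fun k => (αβ k).1, fun k => (αβ k).2, fun k l _ _ => key k l, ?_⟩
  intro k l hk hl ρ hρ
  obtain ⟨k1, k2, k3, k4⟩ := hk
  obtain ⟨l1, l2, l3, l4⟩ := hl
  have hs : 0 < Real.sqrt n := Real.sqrt_pos.mpr (by exact_mod_cast hn)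
  have e1 : ((k.1.toNat : ℕ) : ℝ) = k.1 := by
    have : ((k.1.toNat : ℕ) : ℤ) = k.1 := Int.toNat_of_nonneg k1
    exact_mod_cast this
  have e2 : ((k.2.toNat : ℕ) : ℝ) = k.2 := by
    have : ((k.2.toNat : ℕ) : ℤ) = k.2 := Int.toNat_of_nonneg k3
    exact_mod_cast this
  have e3 : ((l.1.toNat : ℕ) : ℝ) = l.1 := by
    have : ((l.1.toNat : ℕ) : ℤ) = l.1 := Int.toNat_of_nonneg l1
    exact_mod_cast this
  have e4 : ((l.2.toNat : ℕ) : ℝ) = l.2 := by
    have : ((l.2.toNat : ℕ) : ℤ) = l.2 := Int.toNat_of_nonneg l3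
    exact_mod_cast this
  unfold df at hρ
  rw [e1, e2, e3, e4, key k l] at hρ
  have e5 : ((((((k.1 - l.1 : ℤ) : ℝ) + ((αβ k).1 - (αβ l).1) : ℝ)) : ℂ) * a +
        (((((k.2 - l.2 : ℤ) : ℝ) + ((αβ k).2 - (αβ l).2) : ℝ)) : ℂ) * b) -
        ((((k.1 : ℝ) - l.1 : ℝ) : ℂ) * a + (((k.2 : ℝ) - l.2 : ℝ) : ℂ) * b) =
      (((αβ k).1 - (αβ l).1 : ℝ) : ℂ) * a + (((αβ k).2 - (αβ l).2 : ℝ) : ℂ) * b := by
    push_cast; ring
  rw [e5] at hρ
  obtain ⟨h2, h3⟩ := coord_le hC0 hn hB ((αβ k).1 - (αβ l).1) ((αβ k).2 - (αβ l).2)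
  have h4 : C ^ 2 * Real.sqrt n * ‖(((αβ k).1 - (αβ l).1 : ℝ) : ℂ) * a + (((αβ k).2 - (αβ l).2 : ℝ) : ℂ) * b‖
      ≤ C ^ 2 * ρ := by
    calc _ ≤ C ^ 2 * Real.sqrt n * (ρ / Real.sqrt n) := mul_le_mul_of_nonneg_left hρ (by positivity)
      _ = C ^ 2 * ρ := by field_simp
  exact ⟨h2.trans h4, h3.trans h4⟩

/-- the bridge between angles and areas -/
theorem bridge {n : ℕ} (hn : 1 ≤ n) (y : ℕ → ℕ → ℂ) (a b : ℂ) (C : ℝ) (hC : 1 ≤ C)
    (hB : Basis2 C n a b) (N K : ℕ) (Γ δ r γ α : ℝ) (hN : 1 ≤ N) (hα : 0 ≤ α)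
    (hnear : ∀ i j i' j', i ≤ N → j ≤ N → i' ≤ N → j' ≤ N → |(i : ℤ) - i'| ≤ K + 3 → |(j : ℤ) - j'| ≤ K + 3 →
      df y a b i j i' j' ≤ δ / Real.sqrt n)
    (hglob : ∀ i j i' j', i ≤ N → j ≤ N → i' ≤ N → j' ≤ N → df y a b i j i' j' ≤ Γ / Real.sqrt n)
    (hmid : ∀ i j i' j', i ≤ N → j ≤ N → i' ≤ N → j' ≤ N → |(i : ℝ) - i'| ≤ r * N / 4 →
      |(j : ℝ) - j'| ≤ r * N / 4 → df y a b i j i' j' ≤ γ / Real.sqrt n)
    (hang : ∀ i j i' j' i'' j'', i ≤ N → j ≤ N → i' ≤ N → j' ≤ N → i'' ≤ N → j'' ≤ N → y i j ≠ y i' j' →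
      y i' j' ≠ y i'' j'' → y i j ≠ y i'' j'' → α ≤ EuclideanGeometry.angle (y i j) (y i' j') (y i'' j''))
    (h1 : C ^ 2 * δ ≤ 1 / 2) (h2 : 4 * (C ^ 2 * Γ) < r * N / 16)
    (h3 : 2 * C * (K + 1) * (2 * C ^ 2) < r * N / 16) :
    ∃ u v : ℤ × ℤ → ℝ, Hyp N K (C ^ 2 * Γ) (C ^ 2 * δ) r (C ^ 2 * γ) (α * N ^ 2 / (4 * Real.pi * C ^ 6)) u v ∧
      (∀ k l, inbox N k → inbox N l → ∀ ρ : ℝ,
        df y a b k.1.toNat k.2.toNat l.1.toNat l.2.toNat ≤ ρ / Real.sqrt n →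
        |u k - u l| ≤ C ^ 2 * ρ ∧ |v k - v l| ≤ C ^ 2 * ρ) := by
  obtain ⟨u, v, huv, hρ⟩ := exists_uv hn y a b C hC hB N
  have hC0 : 0 < C := by linarith
  have hs : 0 < Real.sqrt n := Real.sqrt_pos.mpr (by exact_mod_cast hn)
  have hn0 : (0 : ℝ) < n := by exact_mod_cast hn
  have hs2 : Real.sqrt n * Real.sqrt n = n := Real.mul_self_sqrt hn0.le
  have hN0 : (0 : ℝ) < N := by exact_mod_cast hN
  have hpi := Real.pi_pos
  have tn : ∀ k : ℤ × ℤ, inbox N k → k.1.toNat ≤ N ∧ k.2.toNat ≤ N ∧ ((k.1.toNat : ℕ) : ℤ) = k.1 ∧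
      ((k.2.toNat : ℕ) : ℤ) = k.2 := by
    rintro k ⟨k1, k2, k3, k4⟩
    refine ⟨by omega, by omega, Int.toNat_of_nonneg k1, Int.toNat_of_nonneg k3⟩
  have near : ∀ k l, inbox N k → inbox N l → nd k l ≤ K + 3 →
      |u k - u l| ≤ C ^ 2 * δ ∧ |v k - v l| ≤ C ^ 2 * δ := by
    intro k l hk hl hkl
    obtain ⟨a1, a2, a3, a4⟩ := tn k hk
    obtain ⟨b1, b2, b3, b4⟩ := tn l hl
    unfold nd at hkl
    rw [max_le_iff] at hkl
    exact hρ k l hk hl δ (hnear _ _ _ _ a1 a2 b1 b2 (by rw [a3, b3]; exact hkl.1) (by rw [a4, b4]; exact hkl.2))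
  have glob : ∀ k l, inbox N k → inbox N l → |u k - u l| ≤ C ^ 2 * Γ ∧ |v k - v l| ≤ C ^ 2 * Γ := by
    intro k l hk hl
    obtain ⟨a1, a2, a3, a4⟩ := tn k hk
    obtain ⟨b1, b2, b3, b4⟩ := tn l hl
    exact hρ k l hk hl Γ (hglob _ _ _ _ a1 a2 b1 b2)
  refine ⟨u, v, ⟨near, glob, ?_, ?_⟩, hρ⟩
  · intro k l hk hl hkl
    obtain ⟨a1, a2, a3, a4⟩ := tn k hk
    obtain ⟨b1, b2, b3, b4⟩ := tn l hl
    have q1 : ((k.1.toNat : ℕ) : ℝ) = k.1 := by exact_mod_cast a3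
    have q2 : ((k.2.toNat : ℕ) : ℝ) = k.2 := by exact_mod_cast a4
    have q3 : ((l.1.toNat : ℕ) : ℝ) = l.1 := by exact_mod_cast b3
    have q4 : ((l.2.toNat : ℕ) : ℝ) = l.2 := by exact_mod_cast b4
    have c1 : (((k.1.toNat : ℕ) : ℝ) - ((l.1.toNat : ℕ) : ℝ)) = ((k.1 - l.1 : ℤ) : ℝ) := by
      rw [q1, q3]; push_cast; ring
    have c2 : (((k.2.toNat : ℕ) : ℝ) - ((l.2.toNat : ℕ) : ℝ)) = ((k.2 - l.2 : ℤ) : ℝ) := by
      rw [q2, q4]; push_cast; ring
    have d1 : |((k.1 - l.1 : ℤ) : ℝ)| ≤ nd k l := by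
      have : |k.1 - l.1| ≤ nd k l := le_max_left _ _
      exact_mod_cast this
    have d2 : |((k.2 - l.2 : ℤ) : ℝ)| ≤ nd k l := by
      have : |k.2 - l.2| ≤ nd k l := le_max_right _ _
      exact_mod_cast this
    refine hρ k l hk hl γ (hmid _ _ _ _ a1 a2 b1 b2 ?_ ?_)
    · rw [c1]; linarith
    · rw [c2]; linarith
  · intro k l m hk hl hm hkl hndkl hndkm
    -- the three vectors
    have ekm := huv k m hk hm
    have elm := huv l m hl hm
    have elk := huv l k hl hk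
    -- the points
    obtain ⟨pk, hpk⟩ : ∃ p, p = y k.1.toNat k.2.toNat := ⟨_, rfl⟩
    obtain ⟨pl, hpl⟩ : ∃ p, p = y l.1.toNat l.2.toNat := ⟨_, rfl⟩
    obtain ⟨pm, hpm⟩ : ∃ p, p = y m.1.toNat m.2.toNat := ⟨_, rfl⟩
    rw [← hpk, ← hpm] at ekm
    rw [← hpl, ← hpm] at elm
    rw [← hpl, ← hpk] at elk
    have hndpos : (0 : ℝ) < nd k m := by
      have : 0 ≤ C ^ 2 * Γ := le_trans (abs_nonneg _) (glob k k hk hk).1
      linarith
    -- lower bound for a vector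
    have low : ∀ p q : ℤ × ℤ, inbox N p → inbox N q → ∀ t : ℝ, t ≤ nd p q →
        |u p - u q| ≤ t / 2 → |v p - v q| ≤ t / 2 →
        t / 2 ≤ C ^ 2 * Real.sqrt n * ‖(((((p.1 - q.1 : ℤ) : ℝ) + (u p - u q) : ℝ)) : ℂ) * a +
          (((((p.2 - q.2 : ℤ) : ℝ) + (v p - v q) : ℝ)) : ℂ) * b‖ := by
      intro p q hp hq t ht hu hv
      obtain ⟨f1, f2⟩ := coord_le hC0 hn hB (((p.1 - q.1 : ℤ) : ℝ) + (u p - u q)) (((p.2 - q.2 : ℤ) : ℝ) + (v p - v q))
      rcases le_total |p.1 - q.1| |p.2 - q.2| with hc | hc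
      · have e : nd p q = |p.2 - q.2| := max_eq_right hc
        have e' : ((nd p q : ℤ) : ℝ) = |((p.2 - q.2 : ℤ) : ℝ)| := by rw [e]; push_cast; rfl
        have := abs_sub_abs_le_abs_sub ((p.2 - q.2 : ℤ) : ℝ) (-(v p - v q))
        rw [abs_neg, sub_neg_eq_add] at this
        linarith
      · have e : nd p q = |p.1 - q.1| := max_eq_left hc
        have e' : ((nd p q : ℤ) : ℝ) = |((p.1 - q.1 : ℤ) : ℝ)| := by rw [e]; push_cast; rfl
        have := abs_sub_abs_le_abs_sub ((p.1 - q.1 : ℤ) : ℝ) (-(u p - u q))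
        rw [abs_neg, sub_neg_eq_add] at this
        linarith
    have hgk := glob k m hk hm
    have hgl := glob l m hl hm
    have ndlm : (nd k m : ℝ) / 2 ≤ nd l m := by
      have i1 : nd k m ≤ nd k l + nd l m := by
        unfold nd
        apply max_le
        · calc |k.1 - m.1| = |(k.1 - l.1) + (l.1 - m.1)| := by ring_nf
            _ ≤ |k.1 - l.1| + |l.1 - m.1| := abs_add_le _ _
            _ ≤ _ := add_le_add (le_max_left _ _) (le_max_left _ _)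
        · calc |k.2 - m.2| = |(k.2 - l.2) + (l.2 - m.2)| := by ring_nf
            _ ≤ |k.2 - l.2| + |l.2 - m.2| := abs_add_le _ _
            _ ≤ _ := add_le_add (le_max_right _ _) (le_max_right _ _)
      have i2 : nd k m ≤ K + nd l m := by omega
      have i3 : (nd k m : ℝ) ≤ K + nd l m := by exact_mod_cast i2
      have i4 : 2 * ((K : ℝ) + 1) ≤ 2 * C * (K + 1) * (2 * C ^ 2) := by
        have : (1 : ℝ) ≤ C ^ 2 := one_le_pow₀ hC
        have h5 : 1 ≤ C * (2 * C ^ 2) := by nlinarith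
        have h6 : (0 : ℝ) ≤ (K : ℝ) + 1 := by positivity
        nlinarith
      linarith
    have lowk := low k m hk hm (nd k m) le_rfl (by linarith) (by linarith)
    rw [← ekm] at lowk
    have lowl := low l m hl hm ((nd k m : ℝ) / 2) ndlm (by linarith) (by linarith)
    rw [← elm] at lowl
    -- distances
    have h5 : ∀ t w : ℝ, t / 2 ≤ C ^ 2 * Real.sqrt n * w → t / (2 * (C ^ 2 * Real.sqrt n)) ≤ w := by
      intro t w h
      rw [div_le_iff₀ (by positivity)]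
      linarith
    have vk := h5 _ _ lowk
    have vl := h5 _ _ lowl
    have vkpos : 0 < ‖pk - pm‖ := lt_of_lt_of_le (by positivity) vk
    have vlpos : 0 < ‖pl - pm‖ := lt_of_lt_of_le (by positivity) vl
    have wup : ‖pl - pk‖ ≤ 2 * C * (K + 1) / Real.sqrt n := by
      have j1 := near l k hl hk (by
        unfold nd at hndkl ⊢
        rw [abs_sub_comm l.1, abs_sub_comm l.2]; omega)
      have j2 : |((l.1 - k.1 : ℤ) : ℝ)| ≤ K := by
        have : |l.1 - k.1| ≤ K := by rw [abs_sub_comm]; exact (le_max_left _ _).trans hndkl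
        exact_mod_cast this
      have j3 : |((l.2 - k.2 : ℤ) : ℝ)| ≤ K := by
        have : |l.2 - k.2| ≤ K := by rw [abs_sub_comm]; exact (le_max_right _ _).trans hndkl
        exact_mod_cast this
      rw [elk]
      refine (norm_add_le _ _).trans ?_
      rw [norm_mul, norm_mul, Complex.norm_real, Complex.norm_real, Real.norm_eq_abs, Real.norm_eq_abs]
      have j4 : |((l.1 - k.1 : ℤ) : ℝ) + (u l - u k)| ≤ K + 1 := (abs_add_le _ _).trans (by linarith [j1.1])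
      have j5 : |((l.2 - k.2 : ℤ) : ℝ) + (v l - v k)| ≤ K + 1 := (abs_add_le _ _).trans (by linarith [j1.2])
      have j6 := mul_le_mul j4 hB.1 (norm_nonneg _) (by positivity)
      have j7 := mul_le_mul j5 hB.2.1 (norm_nonneg _) (by positivity)
      calc _ ≤ ((K : ℝ) + 1) * (C / Real.sqrt n) + (K + 1) * (C / Real.sqrt n) := add_le_add j6 j7
        _ = 2 * C * (K + 1) / Real.sqrt n := by ring
    -- distinctness
    have hlkne : pl - pk ≠ 0 := by
      intro h0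
      have hlk1 : (1 : ℝ) ≤ nd l k := by
        have : 1 ≤ nd l k := by
          by_contra hcon
          push Not at hcon
          have hcon' : max |l.1 - k.1| |l.2 - k.2| ≤ 0 := by unfold nd at hcon; omega
          have z1 : |l.1 - k.1| ≤ 0 := (le_max_left _ _).trans hcon'
          have z2 : |l.2 - k.2| ≤ 0 := (le_max_right _ _).trans hcon'
          apply hkl
          have z3 := abs_eq_zero.mp (le_antisymm z1 (abs_nonneg _))
          have z4 := abs_eq_zero.mp (le_antisymm z2 (abs_nonneg _))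
          exact Prod.ext (by omega) (by omega)
        exact_mod_cast this
      have j1 := near l k hl hk (by
        unfold nd at hndkl ⊢
        rw [abs_sub_comm l.1, abs_sub_comm l.2]; omega)
      have := low l k hl hk 1 hlk1 (by linarith [j1.1]) (by linarith [j1.2])
      rw [← elk, h0, norm_zero, mul_zero] at this
      linarith
    have ne1 : pk ≠ pm := by
      intro h; rw [h, sub_self, norm_zero] at vkpos; exact lt_irrefl _ vkpos
    have ne2 : pm ≠ pl := by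
      intro h; rw [h, sub_self, norm_zero] at vlpos; exact lt_irrefl _ vlpos
    have ne3 : pk ≠ pl := by
      intro h; apply hlkne; rw [h, sub_self]
    have hA : α ≤ EuclideanGeometry.angle pk pm pl := by
      obtain ⟨a1, a2, _, _⟩ := tn k hk
      obtain ⟨b1, b2, _, _⟩ := tn l hl
      obtain ⟨c1, c2, _, _⟩ := tn m hm
      rw [hpk, hpm] at ne1
      rw [hpm, hpl] at ne2
      rw [hpk, hpl] at ne3
      rw [hpk, hpm, hpl]
      exact hang _ _ _ _ _ _ a1 a2 c1 c2 b1 b2 ne1 ne2 ne3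
    have hang2 : EuclideanGeometry.angle pk pm pl =
        InnerProductGeometry.angle (pk - pm) (pl - pm) := rfl
    rw [hang2] at hA
    have hlt : ‖(pl - pm) - (pk - pm)‖ < ‖pk - pm‖ := by
      rw [show (pl - pm) - (pk - pm) = pl - pk by ring]
      refine lt_of_le_of_lt wup (lt_of_lt_of_le ?_ vk)
      rw [div_lt_div_iff₀ hs (by positivity)]
      nlinarith
    have hle := angle_le hlt (norm_pos_iff.mp vlpos)
    have hdet : det2 (pk - pm) (pl - pm) = D u v k l m * det2 a b := by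
      rw [ekm, elm, det2_lin]
      unfold D
      push_cast
      ring
    rw [hdet, abs_mul] at hle
    have hab : |det2 a b| ≤ C ^ 2 / n := by
      have g1 : |det2 a b| ≤ ‖a‖ * ‖b‖ := by
        have g2 : det2 a b = ((starRingEnd ℂ) a * b).im := by
          simp [det2]; ring
        rw [g2]
        refine (Complex.abs_im_le_norm _).trans ?_
        rw [norm_mul, Complex.norm_conj]
      refine g1.trans ?_
      have g3 := mul_le_mul hB.1 hB.2.1 (norm_nonneg _) (by positivity)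
      refine g3.trans (le_of_eq ?_)
      rw [div_mul_div_comm, hs2]
      ring
    -- conclusion
    obtain ⟨t, ht⟩ : ∃ t : ℝ, t = nd k m := ⟨_, rfl⟩
    rw [← ht] at vk vl hndpos ⊢
    have hprod : t ^ 2 / (8 * C ^ 4 * n) ≤ ‖pk - pm‖ * ‖pl - pm‖ := by
      have := mul_le_mul vk vl (by positivity) (norm_nonneg _)
      refine le_trans (le_of_eq ?_) this
      rw [div_mul_div_comm]
      have e : 2 * (C ^ 2 * Real.sqrt n) * (2 * (C ^ 2 * Real.sqrt n)) = 4 * C ^ 4 * n := by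
        calc _ = 4 * C ^ 4 * (Real.sqrt n * Real.sqrt n) := by ring
          _ = _ := by rw [hs2]
      rw [e]
      field_simp
      ring
    have hmain : α * (‖pk - pm‖ * ‖pl - pm‖) ≤ Real.pi / 2 * (|D u v k l m| * |det2 a b|) := by
      have := hA.trans hle
      rw [← mul_div_assoc, le_div_iff₀ (mul_pos vkpos vlpos)] at this
      exact this
    have hm2 : α * (t ^ 2 / (8 * C ^ 4 * n)) ≤ Real.pi / 2 * (|D u v k l m| * (C ^ 2 / n)) :=
      (mul_le_mul_of_nonneg_left hprod hα).trans (hmain.trans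
        (mul_le_mul_of_nonneg_left (mul_le_mul_of_nonneg_left hab (abs_nonneg _)) (by positivity)))
    have e1 : α * (t ^ 2 / (8 * C ^ 4 * n)) = (Real.pi / 2 * (C ^ 2 / n)) *
        (α * N ^ 2 / (4 * Real.pi * C ^ 6) * (t / N) ^ 2) := by
      field_simp
      ring
    have e2 : Real.pi / 2 * (|D u v k l m| * (C ^ 2 / n)) = (Real.pi / 2 * (C ^ 2 / n)) * |D u v k l m| := by
      ring
    rw [e1, e2] at hm2
    exact le_of_mul_le_mul_left hm2 (by positivity)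

end

end Pool.Agent.Lib.MP_a768d2_co.RG
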