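import Pool.Agent.Lib.MP_a768d2_coR.RgD

/-! # Perturbed grids: choice of the parameters -/

open Filter Topology

namespace Pool.Agent.Lib.MP_a768d2_co.RG

noncomputable section

theorem Hyp.mono {N K : ℕ} {Γ δ r γ c c' : ℝ} {u v : ℤ × ℤ → ℝ} (H : Hyp N K Γ δ r γ c u v) (h : c' ≤ c) :
    Hyp N K Γ δ r γ c' u v :=
  ⟨H.near, H.glob, H.mid, fun k l m hk hl hm h1 h2 h3 =>
    (mul_le_mul_of_nonneg_right h (by positivity)).trans (H.area k l m hk hl hm h1 h2 h3)⟩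

theorem far_le {n : ℕ} (y : ℕ → ℕ → ℂ) (a b : ℂ) (C : ℝ) (N : ℕ) (u v : ℤ × ℤ → ℝ)
    (hρ : ∀ k l, inbox N k → inbox N l → ∀ ρ : ℝ,
        df y a b k.1.toNat k.2.toNat l.1.toNat l.2.toNat ≤ ρ / Real.sqrt n →
        |u k - u l| ≤ C ^ 2 * ρ ∧ |v k - v l| ≤ C ^ 2 * ρ)
    (k : ℕ) (hk : 1 ≤ k) (E : ℝ)
    (hE : ∀ i j i' j', i ≤ N → j ≤ N → i' ≤ N → j' ≤ N → |(i : ℝ) - i'| ≤ k →
      |(j : ℝ) - j'| ≤ N / (8 * k) → df y a b i j i' j' ≤ E / Real.sqrt n) :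
    |v (((N / 2 : ℕ) : ℤ) + (N / (8 * k) : ℕ) * k, ((N / 2 : ℕ) : ℤ) + (N / (8 * k) : ℕ)) -
        v (((N / 2 : ℕ) : ℤ) + (N / 8 : ℕ), ((N / 2 : ℕ) : ℤ))| ≤ C ^ 2 * E := by
  obtain ⟨T, hT⟩ : ∃ T : ℕ, T = N / (8 * k) := ⟨_, rfl⟩
  rw [← hT]
  obtain ⟨m, hm⟩ : ∃ m : ℕ, m = T * k := ⟨_, rfl⟩
  have hm' : (T : ℤ) * k = m := by rw [hm]; push_cast; ring
  have h1 : 8 * m ≤ N := by
    rw [hm, hT]
    calc 8 * (N / (8 * k) * k) = (8 * k) * (N / (8 * k)) := by ring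
      _ ≤ N := Nat.mul_div_le _ _
  have h2 : N < 8 * m + 8 * k := by
    have := Nat.lt_mul_div_succ N (show 0 < 8 * k by omega)
    rw [← hT] at this
    calc N < 8 * k * (T + 1) := this
      _ = 8 * m + 8 * k := by rw [hm]; ring
  have h3 : T ≤ m := by
    rw [hm]; exact Nat.le_mul_of_pos_right _ hk
  rw [hm']
  have f1 : inbox N (((N / 2 : ℕ) : ℤ) + (m : ℤ), ((N / 2 : ℕ) : ℤ) + (T : ℤ)) := by
    refine ⟨?_, ?_, ?_, ?_⟩ <;> simp only <;> omega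
  have f2 : inbox N (((N / 2 : ℕ) : ℤ) + ((N / 8 : ℕ) : ℤ), ((N / 2 : ℕ) : ℤ)) := by
    refine ⟨?_, ?_, ?_, ?_⟩ <;> simp only <;> omega
  refine (hρ _ _ f1 f2 E ?_).2
  have t1 : (((N / 2 : ℕ) : ℤ) + (m : ℤ)).toNat = N / 2 + m := by omega
  have t2 : (((N / 2 : ℕ) : ℤ) + (T : ℤ)).toNat = N / 2 + T := by omega
  have t3 : (((N / 2 : ℕ) : ℤ) + ((N / 8 : ℕ) : ℤ)).toNat = N / 2 + N / 8 := by omega
  have t4 : (((N / 2 : ℕ) : ℤ)).toNat = N / 2 := by omega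
  simp only [t1, t2, t3, t4]
  refine hE _ _ _ _ (by omega) (by omega) (by omega) (by omega) ?_ ?_
  · have g1 : ((N / 2 + m : ℕ) : ℤ) - ((N / 2 + N / 8 : ℕ) : ℤ) ≤ k := by omega
    have g2 : -(k : ℤ) ≤ ((N / 2 + m : ℕ) : ℤ) - ((N / 2 + N / 8 : ℕ) : ℤ) := by omega
    rw [abs_le]
    constructor
    · exact_mod_cast g2
    · exact_mod_cast g1
  · have hk0 : (0 : ℝ) < k := by exact_mod_cast hk
    have g3 : ((N / 2 + T : ℕ) : ℝ) - ((N / 2 : ℕ) : ℝ) = T := by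
      rw [Nat.cast_add]; ring
    rw [g3, abs_of_nonneg (Nat.cast_nonneg _), le_div_iff₀ (by positivity)]
    have g4 : T * (8 * k) ≤ N := by
      calc T * (8 * k) = 8 * m := by rw [hm]; ring
        _ ≤ N := h1
    exact_mod_cast g4

/-- the quantitative theorem -/
theorem rough1 (C : ℝ) (hC : 1 ≤ C) (n : ℕ) (hn : 1 ≤ n) (y : ℕ → ℕ → ℂ) (a b : ℂ) (Γ δ : ℝ) (N K : ℕ)
    (hΓ : 1 ≤ Γ) (hδ : 0 ≤ δ) (hK : 1 ≤ K) (hnN : Real.sqrt n ≤ C * N)
    (hB : Basis2 C n a b)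
    (hdf : ∀ i j i' j', i ≤ N → j ≤ N → i' ≤ N → j' ≤ N →
      df y a b i j i' j' ≤ (Γ * (|(i : ℝ) - i'| + |(j : ℝ) - j'|) / N + δ) / Real.sqrt n)
    (hsmall : 10 ^ 7 * C ^ 10 * Γ * K ^ 4 * (δ + Γ * K / N) ≤ 1)
    (hcon : ∀ i j i' j' i'' j'', i ≤ N → j ≤ N → i' ≤ N → j' ≤ N → i'' ≤ N → j'' ≤ N → y i j ≠ y i' j' →
      y i' j' ≠ y i'' j'' → y i j ≠ y i'' j'' →
      10 ^ 7 * C ^ 10 * Γ / (K * n) < EuclideanGeometry.angle (y i j) (y i' j') (y i'' j'')) : False := by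
  have hC0 : 0 < C := by linarith
  have hΓ0 : 0 < Γ := by linarith
  have hpi := Real.pi_pos
  have hpi4 := Real.pi_le_four
  have hn0 : (0 : ℝ) < n := by exact_mod_cast hn
  have hs : 0 < Real.sqrt n := Real.sqrt_pos.mpr hn0
  have hs2 : Real.sqrt n * Real.sqrt n = n := Real.mul_self_sqrt hn0.le
  have hKR : (1 : ℝ) ≤ K := by exact_mod_cast hK
  have hK0 : (0 : ℝ) < K := by linarith
  have hN0 : (0 : ℝ) < N := by
    by_contra h
    push Not at h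
    nlinarith
  have hN1 : 1 ≤ N := by exact_mod_cast hN0
  -- `e`
  obtain ⟨e, he⟩ : ∃ e, e = δ + Γ * K / N := ⟨_, rfl⟩
  rw [← he] at hsmall
  have he0 : 0 < e := by rw [he]; positivity
  have hδe : δ ≤ e := by rw [he]; have : 0 < Γ * K / N := by positivity
                         linarith
  have hGe : Γ * K / N ≤ e := by rw [he]; linarith
  have hX : C ^ 10 * Γ * K ^ 4 * e ≤ 1 / 10 ^ 7 := by
    rw [le_div_iff₀ (by positivity)]; linarith
  have hC4 : (1 : ℝ) ≤ C ^ 6 := one_le_pow₀ hC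
  have hK3 : (1 : ℝ) ≤ (K : ℝ) ^ 3 := one_le_pow₀ hKR
  have hK4 : (1 : ℝ) ≤ (K : ℝ) ^ 4 := one_le_pow₀ hKR
  have hX1 : C ^ 4 * Γ * K ^ 4 * e ≤ 1 / 10 ^ 7 := by
    refine le_trans ?_ hX
    have : C ^ 10 * Γ * K ^ 4 * e = C ^ 6 * (C ^ 4 * Γ * K ^ 4 * e) := by ring
    rw [this]
    exact le_mul_of_one_le_left (by positivity) hC4
  have hX2 : C ^ 4 * Γ * K * e ≤ 1 / 10 ^ 7 := by
    refine le_trans ?_ hX1
    have : C ^ 4 * Γ * K ^ 4 * e = K ^ 3 * (C ^ 4 * Γ * K * e) := by ring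
    rw [this]
    exact le_mul_of_one_le_left (by positivity) hK3
  have hX3 : C ^ 2 * K * e ≤ 1 / 10 ^ 7 := by
    refine le_trans ?_ hX2
    have : C ^ 4 * Γ * K * e = (C ^ 2 * Γ) * (C ^ 2 * K * e) := by ring
    rw [this]
    refine le_mul_of_one_le_left (by positivity) ?_
    nlinarith [one_le_pow₀ hC (n := 2)]
  have hX4 : C ^ 2 * e ≤ 1 / 10 ^ 7 := by
    refine le_trans ?_ hX3
    have : C ^ 2 * K * e = K * (C ^ 2 * e) := by ring
    rw [this]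
    exact le_mul_of_one_le_left (by positivity) hKR
  have hX5 : C ^ 4 * Γ * e ≤ 1 / 10 ^ 7 := by
    refine le_trans ?_ hX2
    have : C ^ 4 * Γ * K * e = K * (C ^ 4 * Γ * e) := by ring
    rw [this]
    exact le_mul_of_one_le_left (by positivity) hKR
  have hX6 : K * e ≤ 1 / 10 ^ 7 := by
    refine le_trans ?_ hX3
    have : C ^ 2 * K * e = C ^ 2 * (K * e) := by ring
    rw [this]
    exact le_mul_of_one_le_left (by positivity) (one_le_pow₀ hC)
  have hX7 : e ≤ 1 / 10 ^ 7 := by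
    refine le_trans ?_ hX6
    exact le_mul_of_one_le_left he0.le hKR
  -- `N` is large
  have hNbig : 10 ^ 7 * C ^ 10 * Γ ^ 2 * K ^ 5 ≤ N := by
    have h1 : 10 ^ 7 * C ^ 10 * Γ * K ^ 4 * (Γ * K / N) ≤ 1 :=
      (mul_le_mul_of_nonneg_left hGe (by positivity)).trans hsmall
    have h2 : 10 ^ 7 * C ^ 10 * Γ * K ^ 4 * (Γ * K / N) = 10 ^ 7 * C ^ 10 * Γ ^ 2 * K ^ 5 / N := by
      ring
    rw [h2, div_le_one hN0] at h1
    exact h1
  have hNb1 : 10 ^ 7 * C ^ 5 * Γ ^ 2 * K ^ 2 ≤ N := by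
    refine le_trans ?_ hNbig
    have : 10 ^ 7 * C ^ 10 * Γ ^ 2 * K ^ 5 = (C ^ 5 * K ^ 3) * (10 ^ 7 * C ^ 5 * Γ ^ 2 * K ^ 2) := by ring
    rw [this]
    refine le_mul_of_one_le_left (by positivity) ?_
    have := one_le_pow₀ hC (n := 5)
    nlinarith
  -- parameters
  obtain ⟨r, hr⟩ : ∃ r, r = 1 / (1200 * C ^ 2 * K * Γ) := ⟨_, rfl⟩
  have hr0 : 0 < r := by rw [hr]; positivity
  obtain ⟨α, hα⟩ : ∃ α, α = 10 ^ 7 * C ^ 10 * Γ / (K * n) := ⟨_, rfl⟩
  obtain ⟨c, hc⟩ : ∃ c, c = 10 ^ 7 * C ^ 2 * Γ / (4 * Real.pi * K) := ⟨_, rfl⟩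
  have hcα : c ≤ α * N ^ 2 / (4 * Real.pi * C ^ 6) := by
    have h1 : (n : ℝ) ≤ C ^ 2 * N ^ 2 := by
      rw [← hs2]; calc Real.sqrt n * Real.sqrt n ≤ (C * N) * (C * N) := mul_le_mul hnN hnN hs.le (by positivity)
        _ = _ := by ring
    rw [hc, hα, div_le_div_iff₀ (by positivity) (by positivity)]
    have e1 : 10 ^ 7 * C ^ 10 * Γ / (K * n) * N ^ 2 * (4 * Real.pi * K) =
        (10 ^ 7 * C ^ 8 * Γ * 4 * Real.pi) * (C ^ 2 * N ^ 2 / n) := by
      field_simp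
    have e2 : 10 ^ 7 * C ^ 2 * Γ * (4 * Real.pi * C ^ 6) = 10 ^ 7 * C ^ 8 * Γ * 4 * Real.pi * 1 := by ring
    rw [e1, e2]
    refine mul_le_mul_of_nonneg_left ?_ (by positivity)
    rw [le_div_iff₀ hn0]; linarith
  have hc0 : 0 < c := by rw [hc]; positivity
  have hrN : 320 * (C ^ 3 * K) * 1200 ≤ r * N * 1200 ∧ 8000 * C ^ 3 * Γ * K ≤ r * N := by
    have : 8000 * C ^ 3 * Γ * K ≤ r * N := by
      rw [hr, div_mul_eq_mul_div, one_mul, le_div_iff₀ (by positivity)]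
      have e3 : 8000 * C ^ 3 * Γ * K * (1200 * C ^ 2 * K * Γ) = 9600000 * (C ^ 5 * Γ ^ 2 * K ^ 2) := by ring
      rw [e3]
      have : (0 : ℝ) ≤ C ^ 5 * Γ ^ 2 * K ^ 2 := by positivity
      linarith
    refine ⟨?_, this⟩
    have h2 : 8000 * C ^ 3 * Γ * K = (8000 * Γ) * (C ^ 3 * K) := by ring
    have h3 : (0 : ℝ) < C ^ 3 * K := by positivity
    nlinarith
  -- the bridge
  obtain ⟨u, v, H, hρ⟩ := bridge hn y a b C hC hB N (K + 1) (3 * Γ) (10 * e) r (Γ * r / 2 + δ) α hN1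
    (by rw [hα]; positivity)
    (by
      intro i j i' j' hi hj hi' hj' h1 h2
      refine (hdf i j i' j' hi hj hi' hj').trans ?_
      refine div_le_div_of_nonneg_right ?_ hs.le
      have h1' : |(i : ℝ) - i'| ≤ K + 4 := by
        have : |(i : ℤ) - i'| ≤ K + 4 := by push_cast at h1; linarith
        exact_mod_cast this
      have h2' : |(j : ℝ) - j'| ≤ K + 4 := by
        have : |(j : ℤ) - j'| ≤ K + 4 := by push_cast at h2; linarith
        exact_mod_cast this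
      have h3 : Γ * (|(i : ℝ) - i'| + |(j : ℝ) - j'|) / N ≤ Γ * (10 * K) / N := by
        refine div_le_div_of_nonneg_right (mul_le_mul_of_nonneg_left ?_ hΓ0.le) hN0.le
        linarith
      have h4 : Γ * (10 * K) / N = 10 * (Γ * K / N) := by ring
      rw [he]; linarith)
    (by
      intro i j i' j' hi hj hi' hj'
      refine (hdf i j i' j' hi hj hi' hj').trans ?_
      refine div_le_div_of_nonneg_right ?_ hs.le
      have bb : ∀ p q : ℕ, p ≤ N → q ≤ N → |(p : ℝ) - q| ≤ N := by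
        intro p q hp hq
        have hp' : (p : ℝ) ≤ N := by exact_mod_cast hp
        have hq' : (q : ℝ) ≤ N := by exact_mod_cast hq
        have hp0 : (0 : ℝ) ≤ p := Nat.cast_nonneg _
        have hq0 : (0 : ℝ) ≤ q := Nat.cast_nonneg _
        rw [abs_le]; constructor <;> linarith
      have h1 := bb i i' hi hi'
      have h2 := bb j j' hj hj'
      have h3 : Γ * (|(i : ℝ) - i'| + |(j : ℝ) - j'|) / N ≤ 2 * Γ := by
        rw [div_le_iff₀ hN0]
        nlinarith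
      linarith)
    (by
      intro i j i' j' hi hj hi' hj' h1 h2
      refine (hdf i j i' j' hi hj hi' hj').trans ?_
      refine div_le_div_of_nonneg_right ?_ hs.le
      have h3 : Γ * (|(i : ℝ) - i'| + |(j : ℝ) - j'|) / N ≤ Γ * r / 2 := by
        rw [div_le_iff₀ hN0]
        have : Γ * (|(i : ℝ) - i'| + |(j : ℝ) - j'|) ≤ Γ * (r * N / 4 + r * N / 4) :=
          mul_le_mul_of_nonneg_left (by linarith) hΓ0.le
        linarith
      linarith)
    (by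
      intro i j i' j' i'' j'' g1 g2 g3 g4 g5 g6 h1 h2 h3
      rw [hα]
      exact (hcon i j i' j' i'' j'' g1 g2 g3 g4 g5 g6 h1 h2 h3).le)
    (by linarith)
    (by
      have h1 : 4 * (C ^ 2 * (3 * Γ)) * 16 < 8000 * C ^ 3 * Γ * K := by
        have h2 : 8000 * C ^ 3 * Γ * K = 8000 * (C * K) * (C ^ 2 * Γ) := by ring
        have h3 : 1 ≤ C * K := by nlinarith
        have h4 : 0 < C ^ 2 * Γ := by positivity
        rw [h2]
        nlinarith
      linarith [hrN.2])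
    (by
      push_cast
      have h1 : 2 * C * (K + 1 + 1) * (2 * C ^ 2) * 16 < 8000 * C ^ 3 * Γ * K := by
        have h2 : 8000 * C ^ 3 * Γ * K = C ^ 3 * (8000 * (Γ * K)) := by ring
        have h2' : 2 * C * (K + 1 + 1) * (2 * C ^ 2) * 16 = C ^ 3 * (64 * (K + 2)) := by ring
        rw [h2, h2']
        refine mul_lt_mul_of_pos_left ?_ (by positivity)
        nlinarith
      linarith [hrN.2])
  have H' := H.mono hcα
  -- the numbers
  have num : Num N (K + 1) (C ^ 2 * (3 * Γ)) (C ^ 2 * (10 * e)) r (C ^ 2 * (Γ * r / 2 + δ)) c := by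
    have hCr : C ^ 2 * Γ * K * r = 1 / 1200 := by
      rw [hr]; field_simp
    have hC2 : (1 : ℝ) ≤ C ^ 2 := one_le_pow₀ hC
    have hC3 : (1 : ℝ) ≤ C ^ 3 := one_le_pow₀ hC
    refine ⟨by omega, ?_, by positivity, hc0, hr0, by positivity, ?_, ?_, ?_, ?_, ?_, ?_, ?_, ?_⟩
    · nlinarith
    · push_cast
      have : 200 * (K + 1) * (C ^ 2 * (3 * Γ)) * r = 600 * (C ^ 2 * Γ * r) * (K + 1) := by ring
      rw [this]
      have h0 : 0 ≤ C ^ 2 * Γ * r := by positivity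
      have h1 : C ^ 2 * Γ * r * (K + 1) ≤ 2 * (C ^ 2 * Γ * K * r) := by nlinarith
      linarith
    · push_cast
      have h0 : 0 ≤ C ^ 2 * (Γ * r / 2 + δ) := by positivity
      have h1 : 32 * (K + 1) * (C ^ 2 * (Γ * r / 2 + δ)) ≤ 64 * K * (C ^ 2 * (Γ * r / 2 + δ)) := by
        nlinarith
      have h2 : 64 * K * (C ^ 2 * (Γ * r / 2 + δ)) = 32 * (C ^ 2 * Γ * K * r) + 64 * (C ^ 2 * K * δ) := by ring
      have h3 : C ^ 2 * K * δ ≤ C ^ 2 * K * e := mul_le_mul_of_nonneg_left hδe (by positivity)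
      linarith
    · push_cast
      have h1 : c * (r / 16) ^ 2 = 10 ^ 7 / (4 * Real.pi * 368640000 * C ^ 2 * K ^ 3 * Γ) := by
        rw [hc, hr]; field_simp; norm_num
      rw [h1, lt_div_iff₀ (by positivity)]
      have h2 : 12 * (K + 1) * (C ^ 2 * (10 * e)) ≤ 240 * K * (C ^ 2 * e) := by
        have : 0 < C ^ 2 * e := by positivity
        nlinarith
      calc 12 * (K + 1) * (C ^ 2 * (10 * e)) * (4 * Real.pi * 368640000 * C ^ 2 * K ^ 3 * Γ)
          ≤ 240 * K * (C ^ 2 * e) * (4 * Real.pi * 368640000 * C ^ 2 * K ^ 3 * Γ) :=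
            mul_le_mul_of_nonneg_right h2 (by positivity)
        _ = (240 * 4 * 368640000) * Real.pi * (C ^ 4 * Γ * K ^ 4 * e) := by ring
        _ ≤ (240 * 4 * 368640000) * 4 * (1 / 10 ^ 7) := by
            refine mul_le_mul ?_ hX1 (by positivity) (by positivity)
            exact mul_le_mul_of_nonneg_left hpi4 (by norm_num)
        _ < 10 ^ 7 := by norm_num
    · push_cast
      have h1 : 4 * (K + 1) * (C ^ 2 * (10 * e)) ≤ 80 * (C ^ 2 * K * e) := by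
        have : 0 < C ^ 2 * e := by positivity
        nlinarith
      have h2 : 2 * (C ^ 2 * (10 * e)) * (C ^ 2 * (3 * Γ)) = 60 * (C ^ 4 * Γ * e) := by ring
      rw [h2]
      linarith
    · linarith
    · push_cast
      have h1 : 2 * (K + 1) * (C ^ 2 * (10 * e)) ≤ 40 * (C ^ 2 * K * e) := by
        have : 0 < C ^ 2 * e := by positivity
        nlinarith
      have h2 : 2 * (C ^ 2 * (10 * e)) * (C ^ 2 * (3 * Γ)) = 60 * (C ^ 4 * Γ * e) := by ring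
      rw [h2]
      have h3 : 2 * (K + 1) * (C ^ 2 * (10 * e)) + 60 * (C ^ 4 * Γ * e) ≤ 40 * (C ^ 2 * K * e) + 60 * (C ^ 4 * Γ * e) := by
        linarith
      refine h3.trans ?_
      rw [hc, div_div, le_div_iff₀ (by positivity)]
      have h4 : (40 * (C ^ 2 * K * e) + 60 * (C ^ 4 * Γ * e)) * (4 * Real.pi * K * 1000) =
          Real.pi * (160000 * (C ^ 2 * K ^ 2 * e) + 240000 * (C ^ 4 * Γ * K * e)) := by ring
      rw [h4]
      have h5 : C ^ 2 * K ^ 2 * e ≤ C ^ 4 * Γ * K ^ 4 * e := by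
        have : C ^ 4 * Γ * K ^ 4 * e = (C ^ 2 * Γ * K ^ 2) * (C ^ 2 * K ^ 2 * e) := by ring
        rw [this]
        refine le_mul_of_one_le_left (by positivity) ?_
        have h6 : (1 : ℝ) ≤ (K : ℝ) ^ 2 := one_le_pow₀ hKR
        have h7 : 1 ≤ C ^ 2 * Γ := by nlinarith
        nlinarith
      have h8 : Real.pi * (160000 * (C ^ 2 * K ^ 2 * e) + 240000 * (C ^ 4 * Γ * K * e)) ≤
          4 * (160000 * (C ^ 4 * Γ * K ^ 4 * e) + 240000 * (C ^ 4 * Γ * K * e)) := by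
        refine mul_le_mul hpi4 (by linarith) (by positivity) (by norm_num)
      have h9 : (1 : ℝ) ≤ C ^ 2 * Γ := by nlinarith
      nlinarith
    · push_cast
      have h2 : 8000 * C ^ 3 * Γ * K = (C ^ 3 * Γ) * (8000 * K) := by ring
      have h3 : 1 ≤ C ^ 3 * Γ := by nlinarith
      nlinarith [hrN.2]
    · push_cast
      have h1 : 3200 * ((K : ℝ) + 1) ^ 2 * (C ^ 2 * (3 * Γ)) ≤ 38400 * (K ^ 2 * (C ^ 2 * Γ)) := by
        have h2 : ((K : ℝ) + 1) ^ 2 ≤ 4 * K ^ 2 := by nlinarith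
        have h3 : 0 < C ^ 2 * Γ := by positivity
        nlinarith
      refine h1.trans (le_trans ?_ hNb1)
      have h4 : 10 ^ 7 * C ^ 5 * Γ ^ 2 * K ^ 2 = (10 ^ 7 * C ^ 3 * Γ) * (K ^ 2 * (C ^ 2 * Γ)) := by ring
      rw [h4]
      refine mul_le_mul_of_nonneg_right ?_ (by positivity)
      have h3 : 1 ≤ C ^ 3 * Γ := by nlinarith
      nlinarith
  refine core H' num (C ^ 2 * Γ) ?_ ?_
  · intro k hk1 hkK
    have hkR : (1 : ℝ) ≤ k := by exact_mod_cast hk1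
    have hkK' : (k : ℝ) ≤ K + 1 := by exact_mod_cast hkK
    have hk0 : (0 : ℝ) < k := by linarith
    have h1 := far_le y a b C N u v hρ k hk1 (Γ * (k + N / (8 * k)) / N + δ) (by
      intro i j i' j' hi hj hi' hj' g1 g2
      refine (hdf i j i' j' hi hj hi' hj').trans ?_
      refine div_le_div_of_nonneg_right ?_ hs.le
      have : Γ * (|(i : ℝ) - i'| + |(j : ℝ) - j'|) / N ≤ Γ * (k + N / (8 * k)) / N :=
        div_le_div_of_nonneg_right (mul_le_mul_of_nonneg_left (by linarith) hΓ0.le) hN0.le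
      linarith)
    refine (mul_le_mul_of_nonneg_left h1 hk0.le).trans ?_
    have h2 : (k : ℝ) * (C ^ 2 * (Γ * (k + N / (8 * k)) / N + δ)) =
        C ^ 2 * (k ^ 2 * Γ / N + Γ / 8 + k * δ) := by
      field_simp
    rw [h2]
    refine mul_le_mul_of_nonneg_left ?_ (by positivity)
    have h3 : (k : ℝ) ^ 2 * Γ / N ≤ 4 * (K * e) := by
      have h4 : (k : ℝ) ^ 2 ≤ 4 * K ^ 2 := by nlinarith
      calc (k : ℝ) ^ 2 * Γ / N ≤ 4 * K ^ 2 * Γ / N :=
            div_le_div_of_nonneg_right (mul_le_mul_of_nonneg_right h4 hΓ0.le) hN0.le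
        _ = 4 * (K * (Γ * K / N)) := by ring
        _ ≤ 4 * (K * e) := by
            have := mul_le_mul_of_nonneg_left hGe hK0.le
            linarith
    have h5 : (k : ℝ) * δ ≤ 2 * (K * e) := by
      calc (k : ℝ) * δ ≤ (2 * K) * e := mul_le_mul (by linarith) hδe hδ (by positivity)
        _ = _ := by ring
    linarith
  · push_cast
    have h1 : ((K : ℝ) + 1 - 1) * (8 * c / 100) = 800000 * (C ^ 2 * Γ) / (4 * Real.pi) := by
      rw [hc]; field_simp; ring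
    rw [h1, lt_div_iff₀ (by positivity)]
    have h2 : 0 < C ^ 2 * Γ := by positivity
    nlinarith

end

end Pool.Agent.Lib.MP_a768d2_co.RG
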