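import Pool.Agent.Lib.MP_a768d2_coR.RgE

/-! # Perturbed grids: arbitrary moduli of continuity -/

open Filter Topology

namespace Pool.Agent.Lib.MP_a768d2_co.RG

noncomputable section

theorem small_ev (A B : ℝ) (hB : 0 < B) : ∀ᶠ δ in 𝓝[>] (0 : ℝ), A * δ < B := by
  have h : Tendsto (fun δ : ℝ => A * δ) (𝓝 0) (𝓝 (A * 0)) := (continuous_const.mul continuous_id).tendsto 0
  rw [mul_zero] at h
  exact (h.eventually_lt_const hB).filter_mono nhdsWithin_le_nhds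

/-- the qualitative theorem -/
theorem rough2 (C : ℝ) (hC : 1 ≤ C) (c : ℝ) (hc : 0 < c) (ω : ℝ → ℝ) (hω : Monotone ω)
    (hω0 : Tendsto ω (𝓝[>] 0) (𝓝 0)) : ∃ δ : ℝ, 0 < δ ∧ ∃ n₀ : ℕ, ∀ n : ℕ, n₀ ≤ n →
    ∀ (y : ℕ → ℕ → ℂ) (a b : ℂ) (N : ℕ), Real.sqrt n ≤ C * N → Basis2 C n a b →
      (∀ i j i' j', i ≤ N → j ≤ N → i' ≤ N → j' ≤ N →
        df y a b i j i' j' ≤ (ω (max |(i : ℝ) - i'| |(j : ℝ) - j'| / N) + δ) / Real.sqrt n) →
      (∀ i j i' j' i'' j'', i ≤ N → j ≤ N → i' ≤ N → j' ≤ N → i'' ≤ N → j'' ≤ N → y i j ≠ y i' j' →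
        y i' j' ≠ y i'' j'' → y i j ≠ y i'' j'' →
        c / n ≤ EuclideanGeometry.angle (y i j) (y i' j') (y i'' j'')) → False := by
  have hC0 : 0 < C := by linarith
  have hpi := Real.pi_pos
  have small : ∀ ε : ℝ, 0 < ε → ∃ t : ℝ, 0 < t ∧ ω t ≤ ε := by
    intro ε hε
    obtain ⟨t, ht1, ht2⟩ := ((hω0.eventually_lt_const hε).and self_mem_nhdsWithin).exists
    exact ⟨t, ht2, ht1.le⟩
  obtain ⟨c₀, hc₀⟩ : ∃ c₀, c₀ = c / (4 * Real.pi * C ^ 8) := ⟨_, rfl⟩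
  have hc₀0 : 0 < c₀ := by rw [hc₀]; positivity
  obtain ⟨Γ, hΓdef⟩ : ∃ Γ, Γ = max 1 (ω 1 + 1) := ⟨_, rfl⟩
  have hΓ1 : 1 ≤ Γ := by rw [hΓdef]; exact le_max_left _ _
  have hΓ2 : ω 1 + 1 ≤ Γ := by rw [hΓdef]; exact le_max_right _ _
  have hΓ0 : 0 < Γ := by linarith
  -- k₁
  obtain ⟨t₁, ht₁, hωt₁⟩ := small (c₀ / (2000 * C ^ 2)) (by positivity)
  obtain ⟨k₁, hk₁⟩ := exists_nat_gt (1 / (8 * t₁))
  have hk₁0 : (0 : ℝ) < k₁ := lt_trans (by positivity) hk₁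
  have hk₁t : ∀ k : ℝ, (k₁ : ℝ) ≤ k → 1 / (8 * k) ≤ t₁ := by
    intro k hk
    rw [div_lt_iff₀ (by positivity)] at hk₁
    rw [div_le_iff₀ (by linarith)]
    nlinarith
  -- K
  obtain ⟨K, hK⟩ := exists_nat_gt ((c₀ + 800 * (C ^ 2 * Γ) + 18 * (k₁ * (C ^ 2 * Γ))) / (62 / 1000 * c₀))
  have hKbig : 2 * (400 * (C ^ 2 * Γ) + 9 * (k₁ * (C ^ 2 * Γ) + K * (c₀ / 1000))) <
      ((K : ℝ) - 1) * (8 * c₀ / 100) := by
    rw [div_lt_iff₀ (by positivity)] at hK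
    nlinarith
  have hK0 : (0 : ℝ) < K := lt_trans (by positivity) hK
  have hK1 : 1 ≤ K := by
    have : 0 < K := by exact_mod_cast hK0
    omega
  have hKR : (1 : ℝ) ≤ K := by exact_mod_cast hK1
  -- r
  obtain ⟨t₂, ht₂, hωt₂⟩ := small (1 / (64 * K * C ^ 2)) (by positivity)
  obtain ⟨r, hrdef⟩ : ∃ r, r = min t₂ (1 / (200 * K * (C ^ 2 * Γ))) := ⟨_, rfl⟩
  have hr0 : 0 < r := by rw [hrdef]; exact lt_min ht₂ (by positivity)
  have hrt : r ≤ t₂ := by rw [hrdef]; exact min_le_left _ _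
  have hr1 : 200 * K * (C ^ 2 * Γ) * r ≤ 1 := by
    have : r ≤ 1 / (200 * K * (C ^ 2 * Γ)) := by rw [hrdef]; exact min_le_right _ _
    rw [le_div_iff₀ (by positivity)] at this
    linarith
  have hωr : ω r ≤ 1 / (64 * K * C ^ 2) := (hω hrt).trans hωt₂
  -- δ
  obtain ⟨δ, ⟨⟨⟨⟨⟨⟨d1, d2⟩, d3⟩, d4⟩, d5⟩, d6⟩, d7⟩, hδ0⟩ := ((((((((small_ev 1 1 one_pos).and
    (small_ev (C ^ 2) (c₀ / 2000) (by positivity))).and
    (small_ev (64 * K * C ^ 2) 1 one_pos)).and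
    (small_ev (24 * K * C ^ 2) (c₀ * (r / 16) ^ 2) (by positivity))).and
    (small_ev (8 * K * C ^ 2 + 4 * C ^ 4 * Γ) 1 one_pos)).and
    (small_ev (2 * C ^ 2) (1 / 64) (by norm_num))).and
    (small_ev (4 * K * C ^ 2 + 4 * C ^ 4 * Γ) (c₀ / 1000) (by positivity))).and
    self_mem_nhdsWithin).exists
  have hδ : 0 < δ := hδ0
  obtain ⟨t₃, ht₃, hωt₃⟩ := small δ hδ
  -- N
  obtain ⟨B, hB⟩ : ∃ B : ℝ, B = (K + 3) / t₃ + 64 * (K + 3) / r + 3200 * K ^ 2 * (C ^ 2 * Γ) + 8 * K ^ 2 +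
    65 * (C ^ 2 * Γ) / r + 65 * (C ^ 3 * (K + 1)) / r := ⟨_, rfl⟩
  have b1 : 0 < (K + 3) / t₃ := by positivity
  have b2 : 0 < 64 * (K + 3) / r := by positivity
  have b3 : 0 < 3200 * (K : ℝ) ^ 2 * (C ^ 2 * Γ) := by positivity
  have b4 : 0 < 8 * (K : ℝ) ^ 2 := by positivity
  have b5 : 0 < 65 * (C ^ 2 * Γ) / r := by positivity
  have b6 : 0 < 65 * (C ^ 3 * (K + 1)) / r := by positivity
  have hB0 : 0 < B := by rw [hB]; linarith
  refine ⟨δ, hδ, max 1 ⌈(C * B) ^ 2⌉₊, ?_⟩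
  intro n hn y a b N hnN hBasis hdf hcon
  have hn1 : 1 ≤ n := (le_max_left _ _).trans hn
  have hn2 : (C * B) ^ 2 ≤ n := (Nat.le_ceil _).trans (by exact_mod_cast (le_max_right _ _).trans hn)
  have hn0 : (0 : ℝ) < n := by exact_mod_cast hn1
  have hs : 0 < Real.sqrt n := Real.sqrt_pos.mpr hn0
  have hs2 : Real.sqrt n * Real.sqrt n = n := Real.mul_self_sqrt hn0.le
  have hBN : B ≤ N := by
    have h1 : C * B ≤ Real.sqrt n := Real.le_sqrt_of_sq_le hn2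
    have h2 : C * B ≤ C * N := h1.trans hnN
    exact le_of_mul_le_mul_left h2 hC0
  have hN0 : (0 : ℝ) < N := lt_of_lt_of_le hB0 hBN
  have hN1 : 1 ≤ N := by exact_mod_cast hN0
  have n1 : ((K : ℝ) + 3) / N ≤ t₃ := by
    rw [div_le_iff₀ hN0]
    have : (K + 3) / t₃ ≤ N := by linarith
    rw [div_le_iff₀ ht₃] at this
    linarith
  have n2 : 64 * ((K : ℝ) + 3) ≤ r * N := by
    have : 64 * (K + 3) / r ≤ N := by linarith
    rw [div_le_iff₀ hr0] at this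
    linarith
  have n3 : 3200 * (K : ℝ) ^ 2 * (C ^ 2 * Γ) ≤ N := by linarith
  have n4 : 8 * (K : ℝ) ^ 2 ≤ N := by linarith
  have n5 : 65 * (C ^ 2 * Γ) ≤ r * N := by
    have : 65 * (C ^ 2 * Γ) / r ≤ N := by linarith
    rw [div_le_iff₀ hr0] at this
    linarith
  have n6 : 65 * (C ^ 3 * (K + 1)) ≤ r * N := by
    have : 65 * (C ^ 3 * (K + 1)) / r ≤ N := by linarith
    rw [div_le_iff₀ hr0] at this
    linarith
  have hmax : ∀ (i j i' j' : ℕ) (t : ℝ), |(i : ℝ) - i'| ≤ t * N → |(j : ℝ) - j'| ≤ t * N →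
      ω (max |(i : ℝ) - i'| |(j : ℝ) - j'| / N) ≤ ω t := by
    intro i j i' j' t h1 h2
    apply hω
    rw [div_le_iff₀ hN0]
    exact max_le h1 h2
  have hcα : c₀ ≤ c / n * N ^ 2 / (4 * Real.pi * C ^ 6) := by
    have h1 : (n : ℝ) ≤ C ^ 2 * N ^ 2 := by
      rw [← hs2]; calc Real.sqrt n * Real.sqrt n ≤ (C * N) * (C * N) := mul_le_mul hnN hnN hs.le (by positivity)
        _ = _ := by ring
    rw [hc₀, div_le_div_iff₀ (by positivity) (by positivity)]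
    have e1 : c / n * N ^ 2 * (4 * Real.pi * C ^ 8) = (c * (4 * Real.pi * C ^ 6)) * (C ^ 2 * N ^ 2 / n) := by
      ring
    rw [e1]
    refine le_mul_of_one_le_right (by positivity) ?_
    rw [le_div_iff₀ hn0]; linarith
  obtain ⟨u, v, H, hρ⟩ := bridge hn1 y a b C hC hBasis N K Γ (2 * δ) r (ω r + δ) (c / n) hN1
    (by positivity)
    (by
      intro i j i' j' hi hj hi' hj' h1 h2
      refine (hdf i j i' j' hi hj hi' hj').trans ?_
      refine div_le_div_of_nonneg_right ?_ hs.le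
      have h1' : |(i : ℝ) - i'| ≤ K + 3 := by exact_mod_cast h1
      have h2' : |(j : ℝ) - j'| ≤ K + 3 := by exact_mod_cast h2
      have h3 := hmax i j i' j' ((K + 3) / N) (by rw [div_mul_cancel₀ _ hN0.ne']; exact h1')
        (by rw [div_mul_cancel₀ _ hN0.ne']; exact h2')
      have h4 : ω ((K + 3) / N) ≤ ω t₃ := hω n1
      linarith)
    (by
      intro i j i' j' hi hj hi' hj'
      refine (hdf i j i' j' hi hj hi' hj').trans ?_
      refine div_le_div_of_nonneg_right ?_ hs.le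
      have bb : ∀ p q : ℕ, p ≤ N → q ≤ N → |(p : ℝ) - q| ≤ 1 * N := by
        intro p q hp hq
        have hp' : (p : ℝ) ≤ N := by exact_mod_cast hp
        have hq' : (q : ℝ) ≤ N := by exact_mod_cast hq
        have hp0 : (0 : ℝ) ≤ p := Nat.cast_nonneg _
        have hq0 : (0 : ℝ) ≤ q := Nat.cast_nonneg _
        rw [abs_le]; constructor <;> linarith
      have h3 := hmax i j i' j' 1 (bb i i' hi hi') (bb j j' hj hj')
      linarith)
    (by
      intro i j i' j' hi hj hi' hj' h1 h2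
      refine (hdf i j i' j' hi hj hi' hj').trans ?_
      refine div_le_div_of_nonneg_right ?_ hs.le
      have h0 : 0 < r * N := by positivity
      have h3 := hmax i j i' j' r (by linarith) (by linarith)
      linarith)
    (by
      exact hcon)
    (by linarith)
    (by
      have : 0 < C ^ 2 * Γ := by positivity
      linarith)
    (by
      have h2' : 2 * C * (K + 1) * (2 * C ^ 2) * 16 = 64 * (C ^ 3 * (K + 1)) := by ring
      have : 0 < C ^ 3 * ((K : ℝ) + 1) := by positivity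
      linarith)
  have H' := H.mono hcα
  have hωr0 : 0 ≤ C ^ 2 * (ω r + δ) := by
    have h1 := (H.mid (0, 0) (0, 0) ⟨by simp, by simp, by simp, by simp⟩ ⟨by simp, by simp, by simp, by simp⟩
      (by simp [nd]; positivity)).1
    exact (abs_nonneg _).trans h1
  have hC2 : (1 : ℝ) ≤ C ^ 2 := one_le_pow₀ hC
  have num : Num N K (C ^ 2 * Γ) (C ^ 2 * (2 * δ)) r (C ^ 2 * (ω r + δ)) c₀ := by
    refine ⟨hK1, by nlinarith, by positivity, hc₀0, hr0, hωr0, hr1, ?_, ?_, ?_, ?_, ?_, n2, n3⟩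
    · have h1 : 32 * K * (C ^ 2 * ω r) ≤ 1 / 2 := by
        calc 32 * K * (C ^ 2 * ω r) = (32 * K * C ^ 2) * ω r := by ring
          _ ≤ (32 * K * C ^ 2) * (1 / (64 * K * C ^ 2)) := mul_le_mul_of_nonneg_left hωr (by positivity)
          _ = 1 / 2 := by field_simp; norm_num
      linarith
    · linarith
    · linarith
    · linarith
    · linarith
  refine core H' num (k₁ * (C ^ 2 * Γ) + K * (c₀ / 1000)) ?_ hKbig
  intro k hk1 hkK
  have hkR : (1 : ℝ) ≤ k := by exact_mod_cast hk1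
  have hkK' : (k : ℝ) ≤ K := by exact_mod_cast hkK
  have hk0 : (0 : ℝ) < k := by linarith
  have h1 := far_le y a b C N u v hρ k hk1 (ω (1 / (8 * k)) + δ) (by
    intro i j i' j' hi hj hi' hj' g1 g2
    refine (hdf i j i' j' hi hj hi' hj').trans ?_
    refine div_le_div_of_nonneg_right ?_ hs.le
    have e1 : 1 / (8 * (k : ℝ)) * N = N / (8 * k) := by ring
    have e2 : (k : ℝ) ≤ N / (8 * k) := by
      rw [le_div_iff₀ (by positivity)]
      nlinarith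
    have h3 := hmax i j i' j' (1 / (8 * k)) (by rw [e1]; linarith) (by rw [e1]; exact g2)
    linarith)
  refine (mul_le_mul_of_nonneg_left h1 hk0.le).trans ?_
  rcases lt_or_ge (k : ℝ) k₁ with hkk | hkk
  · have h2 : ω (1 / (8 * k)) ≤ ω 1 := by
      apply hω
      rw [div_le_one (by positivity)]
      linarith
    have h3 : C ^ 2 * (ω (1 / (8 * k)) + δ) ≤ C ^ 2 * Γ := mul_le_mul_of_nonneg_left (by linarith) (by positivity)
    have h4 : (k : ℝ) * (C ^ 2 * (ω (1 / (8 * k)) + δ)) ≤ k * (C ^ 2 * Γ) := mul_le_mul_of_nonneg_left h3 hk0.le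
    have h5 : (k : ℝ) * (C ^ 2 * Γ) ≤ k₁ * (C ^ 2 * Γ) := mul_le_mul_of_nonneg_right hkk.le (by positivity)
    have h6 : 0 ≤ K * (c₀ / 1000) := by positivity
    linarith
  · have h2 : ω (1 / (8 * k)) ≤ c₀ / (2000 * C ^ 2) := (hω (hk₁t k hkk)).trans hωt₁
    have h3 : C ^ 2 * ω (1 / (8 * k)) ≤ c₀ / 2000 := by
      calc C ^ 2 * ω (1 / (8 * k)) ≤ C ^ 2 * (c₀ / (2000 * C ^ 2)) := mul_le_mul_of_nonneg_left h2 (by positivity)
        _ = c₀ / 2000 := by field_simp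
    have h4 : C ^ 2 * (ω (1 / (8 * k)) + δ) ≤ c₀ / 1000 := by linarith
    have h5 : (k : ℝ) * (C ^ 2 * (ω (1 / (8 * k)) + δ)) ≤ k * (c₀ / 1000) := mul_le_mul_of_nonneg_left h4 hk0.le
    have h6 : (k : ℝ) * (c₀ / 1000) ≤ K * (c₀ / 1000) := mul_le_mul_of_nonneg_right hkK' (by positivity)
    have h7 : 0 ≤ k₁ * (C ^ 2 * Γ) := by positivity
    linarith

end

end Pool.Agent.Lib.MP_a768d2_co.RG
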