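import Pool.Agent.Lib.MP_a768d2_coR.RgF

/-! # Perturbed grids: the theorems in scale free form -/

open Filter Topology

namespace Pool.Agent.Lib.MP_a768d2_co.RG

noncomputable section

theorem angle_scale (t : ℝ) (ht : t ≠ 0) (p q r : ℂ) :
    EuclideanGeometry.angle ((t : ℂ) * p) ((t : ℂ) * q) ((t : ℂ) * r) = EuclideanGeometry.angle p q r := by
  have h : ∀ z w : ℂ, (t : ℂ) * z - (t : ℂ) * w = t • (z - w) := by
    intro z w
    rw [Complex.real_smul]; ring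
  have e1 : EuclideanGeometry.angle ((t : ℂ) * p) ((t : ℂ) * q) ((t : ℂ) * r) =
      InnerProductGeometry.angle ((t : ℂ) * p - (t : ℂ) * q) ((t : ℂ) * r - (t : ℂ) * q) := rfl
  rw [e1, h, h, InnerProductGeometry.angle_smul_smul ht]
  rfl

theorem basis_scale {C s : ℝ} (hC : 1 ≤ C) (hs : 0 < s) {N : ℕ} (hN : 1 ≤ N) {a b : ℂ} (ha : ‖a‖ ≤ C * s)
    (hb : ‖b‖ ≤ C * s) (hdet : s ^ 2 ≤ C * |a.re * b.im - a.im * b.re|) :
    Basis2 C (N ^ 2) (((1 / (s * N) : ℝ) : ℂ) * a) (((1 / (s * N) : ℝ) : ℂ) * b) := by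
  have hN0 : (0 : ℝ) < N := by exact_mod_cast hN
  have hC0 : 0 < C := by linarith
  have hsq : Real.sqrt ((N ^ 2 : ℕ) : ℝ) = N := by
    push_cast; exact Real.sqrt_sq hN0.le
  have ht : 0 < 1 / (s * N) := by positivity
  refine ⟨?_, ?_, ?_⟩
  · rw [hsq, norm_mul, Complex.norm_real, Real.norm_eq_abs, abs_of_pos ht]
    calc 1 / (s * N) * ‖a‖ ≤ 1 / (s * N) * (C * s) := mul_le_mul_of_nonneg_left ha ht.le
      _ = C / N := by field_simp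
  · rw [hsq, norm_mul, Complex.norm_real, Real.norm_eq_abs, abs_of_pos ht]
    calc 1 / (s * N) * ‖b‖ ≤ 1 / (s * N) * (C * s) := mul_le_mul_of_nonneg_left hb ht.le
      _ = C / N := by field_simp
  · have e : det2 (((1 / (s * N) : ℝ) : ℂ) * a) (((1 / (s * N) : ℝ) : ℂ) * b) =
        (1 / (s * N)) ^ 2 * (a.re * b.im - a.im * b.re) := by
      unfold det2
      simp only [Complex.mul_re, Complex.ofReal_re, Complex.ofReal_im, zero_mul,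
        sub_zero, Complex.mul_im, add_zero]
      ring
    rw [e, abs_mul, abs_of_pos (by positivity)]
    push_cast
    calc 1 / (C * (N : ℝ) ^ 2) = (1 / (s * N)) ^ 2 * (s ^ 2 / C) := by field_simp
      _ ≤ (1 / (s * N)) ^ 2 * |a.re * b.im - a.im * b.re| := by
          refine mul_le_mul_of_nonneg_left ?_ (by positivity)
          rw [div_le_iff₀ hC0]; linarith

theorem df_scale {n : ℕ} (x : Fin n → ℂ) (g : ℕ → ℕ → Fin n) {a b : ℂ} {s E : ℝ} (hs : 0 < s) {N : ℕ}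
    (hN : 1 ≤ N) {i j i' j' : ℕ}
    (h : ‖x (g i j) - x (g i' j') - (((i : ℝ) - i' : ℝ) * a + ((j : ℝ) - j' : ℝ) * b)‖ ≤ E * s) :
    df (fun i j => ((1 / (s * N) : ℝ) : ℂ) * x (g i j)) (((1 / (s * N) : ℝ) : ℂ) * a)
      (((1 / (s * N) : ℝ) : ℂ) * b) i j i' j' ≤ E / Real.sqrt ((N ^ 2 : ℕ) : ℝ) := by
  have hN0 : (0 : ℝ) < N := by exact_mod_cast hN
  have hsq : Real.sqrt ((N ^ 2 : ℕ) : ℝ) = N := by
    push_cast; exact Real.sqrt_sq hN0.le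
  have ht : 0 < 1 / (s * N) := by positivity
  unfold df
  simp only
  have e : ((1 / (s * N) : ℝ) : ℂ) * x (g i j) - ((1 / (s * N) : ℝ) : ℂ) * x (g i' j') -
      ((((i : ℝ) - i' : ℝ) : ℂ) * (((1 / (s * N) : ℝ) : ℂ) * a) +
        (((j : ℝ) - j' : ℝ) : ℂ) * (((1 / (s * N) : ℝ) : ℂ) * b)) =
      ((1 / (s * N) : ℝ) : ℂ) * (x (g i j) - x (g i' j') -
        (((i : ℝ) - i' : ℝ) * a + ((j : ℝ) - j' : ℝ) * b)) := by ring
  rw [e, norm_mul, Complex.norm_real, Real.norm_eq_abs, abs_of_pos ht, hsq]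
  calc 1 / (s * N) * _ ≤ 1 / (s * N) * (E * s) := mul_le_mul_of_nonneg_left h ht.le
    _ = E / N := by field_simp

/-- the quantitative theorem in scale free form -/
theorem final1 (C : ℝ) (hC : 1 ≤ C) (n : ℕ) (x : Fin n → ℂ) (s : ℝ) (a b : ℂ) (Γ δ : ℝ) (N K : ℕ)
    (g : ℕ → ℕ → Fin n) (hs : 0 < s) (ha : ‖a‖ ≤ C * s) (hb : ‖b‖ ≤ C * s)
    (hdet : s ^ 2 ≤ C * |a.re * b.im - a.im * b.re|) (hΓ : 1 ≤ Γ) (hδ : 0 ≤ δ) (hN : 1 ≤ N) (hK : 1 ≤ K)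
    (hdf : ∀ i j i' j', i ≤ N → j ≤ N → i' ≤ N → j' ≤ N →
      ‖x (g i j) - x (g i' j') - (((i : ℝ) - i' : ℝ) * a + ((j : ℝ) - j' : ℝ) * b)‖ ≤
        (Γ * (|(i : ℝ) - i'| + |(j : ℝ) - j'|) / N + δ) * s)
    (hsmall : 10 ^ 7 * C ^ 10 * Γ * K ^ 4 * (δ + Γ * K / N) ≤ 1) :
    ∃ i j k : Fin n, i ≠ j ∧ j ≠ k ∧ i ≠ k ∧
      EuclideanGeometry.angle (x i) (x j) (x k) ≤ 10 ^ 7 * C ^ 10 * Γ / (K * N ^ 2) := by
  by_contra hcon
  push Not at hcon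
  have hN0 : (0 : ℝ) < N := by exact_mod_cast hN
  have hsq : Real.sqrt ((N ^ 2 : ℕ) : ℝ) = N := by
    push_cast; exact Real.sqrt_sq hN0.le
  have ht : 0 < 1 / (s * N) := by positivity
  refine rough1 C hC (N ^ 2) (Nat.one_le_pow _ _ hN) (fun i j => ((1 / (s * N) : ℝ) : ℂ) * x (g i j))
    (((1 / (s * N) : ℝ) : ℂ) * a) (((1 / (s * N) : ℝ) : ℂ) * b) Γ δ N K hΓ hδ hK ?_
    (basis_scale hC hs hN ha hb hdet) ?_ hsmall ?_
  · rw [hsq]; nlinarith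
  · intro i j i' j' hi hj hi' hj'
    exact df_scale x g hs hN (hdf i j i' j' hi hj hi' hj')
  · intro i j i' j' i'' j'' _ _ _ _ _ _ h1 h2 h3
    rw [angle_scale _ ht.ne']
    push_cast
    refine hcon _ _ _ ?_ ?_ ?_
    · intro h; exact h1 (by rw [h])
    · intro h; exact h2 (by rw [h])
    · intro h; exact h3 (by rw [h])

/-- the qualitative theorem in scale free form -/
theorem final2 (C : ℝ) (hC : 1 ≤ C) (c : ℝ) (hc : 0 < c) (ω : ℝ → ℝ) (hω : Monotone ω)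
    (hω0 : Tendsto ω (𝓝[>] 0) (𝓝 0)) : ∃ δ : ℝ, 0 < δ ∧ ∃ N₀ : ℕ, ∀ (n : ℕ) (x : Fin n → ℂ) (s : ℝ) (a b : ℂ)
      (N : ℕ) (g : ℕ → ℕ → Fin n), N₀ ≤ N → 0 < s → ‖a‖ ≤ C * s → ‖b‖ ≤ C * s →
      s ^ 2 ≤ C * |a.re * b.im - a.im * b.re| →
      (∀ i j i' j', i ≤ N → j ≤ N → i' ≤ N → j' ≤ N →
        ‖x (g i j) - x (g i' j') - (((i : ℝ) - i' : ℝ) * a + ((j : ℝ) - j' : ℝ) * b)‖ ≤
          (ω (max |(i : ℝ) - i'| |(j : ℝ) - j'| / N) + δ) * s) →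
      ∃ i j k : Fin n, i ≠ j ∧ j ≠ k ∧ i ≠ k ∧
        EuclideanGeometry.angle (x i) (x j) (x k) < c / N ^ 2 := by
  obtain ⟨δ, hδ, n₀, h⟩ := rough2 C hC c hc ω hω hω0
  refine ⟨δ, hδ, max 1 n₀, ?_⟩
  intro n x s a b N g hN' hs ha hb hdet hdf
  by_contra hcon
  push Not at hcon
  have hN : 1 ≤ N := (le_max_left _ _).trans hN'
  have hN0 : (0 : ℝ) < N := by exact_mod_cast hN
  have hsq : Real.sqrt ((N ^ 2 : ℕ) : ℝ) = N := by
    push_cast; exact Real.sqrt_sq hN0.le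
  have ht : 0 < 1 / (s * N) := by positivity
  refine h (N ^ 2) ?_ (fun i j => ((1 / (s * N) : ℝ) : ℂ) * x (g i j))
    (((1 / (s * N) : ℝ) : ℂ) * a) (((1 / (s * N) : ℝ) : ℂ) * b) N ?_
    (basis_scale hC hs hN ha hb hdet) ?_ ?_
  · have h1 : n₀ ≤ N := (le_max_right _ _).trans hN'
    nlinarith
  · rw [hsq]; nlinarith
  · intro i j i' j' hi hj hi' hj'
    exact df_scale x g hs hN (hdf i j i' j' hi hj hi' hj')
  · intro i j i' j' i'' j'' _ _ _ _ _ _ h1 h2 h3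
    rw [angle_scale _ ht.ne']
    push_cast
    refine hcon _ _ _ ?_ ?_ ?_
    · intro h; exact h1 (by rw [h])
    · intro h; exact h2 (by rw [h])
    · intro h; exact h3 (by rw [h])

end

end Pool.Agent.Lib.MP_a768d2_co.RG
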